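import Mathlib

set_option autoImplicit false

/-!
Finite quotients of free groups injective on a given finite set, and last letters.
-/

namespace Pool.Agent.H.MP_2e25e6_lc

open FreeGroup (of)

theorem mk_cons {n : ℕ} (i : Fin n) (b : Bool) (L : List (Fin n × Bool)) :
    (FreeGroup.mk ((i, b) :: L)) = (if b then of i else (of i)⁻¹) * FreeGroup.mk L := by
  cases b
  · simp only [Bool.false_eq_true, if_false, FreeGroup.of, FreeGroup.inv_mk, FreeGroup.mul_mk]
    rfl
  · simp only [if_true, FreeGroup.of, FreeGroup.mul_mk]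
    rfl

theorem exists_quot (n : ℕ) (B : Finset (FreeGroup (Fin n))) :
    ∃ (G : Type) (_ : Group G) (_ : Fintype G) (π : FreeGroup (Fin n) →* G), Set.InjOn π B := by
  classical
  let T : Finset (FreeGroup (Fin n)) :=
    insert 1 (B.biUnion (fun b => (b.toWord.tails.map FreeGroup.mk).toFinset))
  let e : ∀ i : Fin n, {x : T // of i * (x : FreeGroup (Fin n)) ∈ T} ≃
      {y : T // (of i)⁻¹ * (y : FreeGroup (Fin n)) ∈ T} := fun i =>
    { toFun := fun x => ⟨⟨of i * (x.1 : FreeGroup (Fin n)), x.2⟩, by
        simp only [inv_mul_cancel_left]; exact x.1.2⟩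
      invFun := fun y => ⟨⟨(of i)⁻¹ * (y.1 : FreeGroup (Fin n)), y.2⟩, by
        simp only [mul_inv_cancel_left]; exact y.1.2⟩
      left_inv := fun x => by
        apply Subtype.ext; apply Subtype.ext
        simp
      right_inv := fun y => by
        apply Subtype.ext; apply Subtype.ext
        simp }
  let σ : Fin n → Equiv.Perm T := fun i => (e i).extendSubtype
  have hσ : ∀ (i : Fin n) (x : T) (h : of i * (x : FreeGroup (Fin n)) ∈ T),
      (σ i x : FreeGroup (Fin n)) = of i * x := by
    intro i x h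
    simp only [σ]
    rw [Equiv.extendSubtype_apply_of_mem (e i) x h]
    rfl
  have hσ' : ∀ (i : Fin n) (y : T) (h : (of i)⁻¹ * (y : FreeGroup (Fin n)) ∈ T),
      ((σ i)⁻¹ y : T) = (⟨(of i)⁻¹ * y, h⟩ : T) := by
    intro i y h
    rw [Equiv.Perm.inv_eq_iff_eq]
    apply Subtype.ext
    rw [hσ i ⟨(of i)⁻¹ * y, h⟩ (by simp only [mul_inv_cancel_left]; exact y.2)]
    simp
  let π : FreeGroup (Fin n) →* Equiv.Perm T := FreeGroup.lift σ
  have h1T : (1 : FreeGroup (Fin n)) ∈ T := Finset.mem_insert_self _ _
  have key : ∀ L : List (Fin n × Bool), (∀ L', L' <:+ L → FreeGroup.mk L' ∈ T) →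
      ((π (FreeGroup.mk L) ⟨1, h1T⟩ : T) : FreeGroup (Fin n)) = FreeGroup.mk L := by
    intro L
    induction L with
    | nil =>
      intro _
      rw [← FreeGroup.one_eq_mk, map_one]
      rfl
    | cons a L ih =>
      intro h
      obtain ⟨i, b⟩ := a
      have ih' := ih (fun L' hL' => h L' (hL'.trans (List.suffix_cons _ _)))
      have hmem := h ((i, b) :: L) List.suffix_rfl
      rw [mk_cons] at hmem ⊢
      rw [map_mul, Equiv.Perm.mul_apply]
      cases b
      · simp only [Bool.false_eq_true, if_false] at hmem ⊢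
        rw [map_inv]
        have : π (of i) = σ i := by simp [π]
        rw [this, hσ' i _ (by rw [ih']; exact hmem)]
        simp only [ih']
      · simp only [if_true] at hmem ⊢
        have : π (of i) = σ i := by simp [π]
        rw [this, hσ i _ (by rw [ih']; exact hmem), ih']
  refine ⟨Equiv.Perm T, inferInstance, inferInstance, π, ?_⟩
  intro b hb b' hb' hbb
  have hsuf : ∀ b ∈ B, ∀ L', L' <:+ b.toWord → FreeGroup.mk L' ∈ T := by
    intro b hb L' hL'
    apply Finset.mem_insert_of_mem
    rw [Finset.mem_biUnion]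
    refine ⟨b, hb, ?_⟩
    rw [List.mem_toFinset, List.mem_map]
    exact ⟨L', (List.mem_tails _ _).2 hL', rfl⟩
  have k1 := key b.toWord (hsuf b hb)
  have k2 := key b'.toWord (hsuf b' hb')
  rw [FreeGroup.mk_toWord] at k1 k2
  rw [← k1, ← k2, hbb]

/-- first letter of the reduced word of the inverse -/
def fl {n : ℕ} (g : FreeGroup (Fin n)) : Option (Fin n × Bool) := (g⁻¹).toWord.head?

theorem fl_mul_of {n : ℕ} (g : FreeGroup (Fin n)) (i : Fin n) (h : fl g ≠ some (i, true)) :
    fl (g * of i) = some (i, false) := by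
  unfold fl at *
  have h1 : (g * of i)⁻¹ = FreeGroup.mk ((i, false) :: (g⁻¹).toWord) := by
    rw [mk_cons, FreeGroup.mk_toWord, mul_inv_rev]
    simp
  rw [h1, FreeGroup.toWord_mk, FreeGroup.reduce.cons, FreeGroup.reduce_toWord]
  cases hw : (g⁻¹).toWord with
  | nil => simp
  | cons a L =>
    rw [hw] at h
    simp only [List.head?_cons, ne_eq, Option.some.injEq] at h
    obtain ⟨j, b⟩ := a
    have : ¬ (i = j ∧ false = !b) := by
      rintro ⟨rfl, hb⟩
      apply h
      cases b
      · simp at hb
      · rfl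
    simp only [this, if_false, List.head?_cons]

/-- the correction letter: `g` ends with the generator `a_i` -/
noncomputable def cc {n : ℕ} (g : FreeGroup (Fin n)) : FreeGroup (Fin n) :=
  match fl g with
  | some (i, false) => of i
  | _ => 1

theorem cc_of_false {n : ℕ} {g : FreeGroup (Fin n)} {i : Fin n} (h : fl g = some (i, false)) :
    cc g = of i := by
  unfold cc; rw [h]

theorem cc_one {n : ℕ} {g : FreeGroup (Fin n)} (h : ∀ i, fl g ≠ some (i, false)) :
    cc g = 1 := by
  unfold cc
  rcases hf : fl g with _ | ⟨i, b⟩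
  · rfl
  · cases b
    · exact absurd hf (h i)
    · rfl

theorem cc_cases {n : ℕ} (g : FreeGroup (Fin n)) : cc g = 1 ∨ ∃ i, cc g = of i := by
  by_cases h : ∃ i, fl g = some (i, false)
  · obtain ⟨i, hi⟩ := h
    right; exact ⟨i, cc_of_false hi⟩
  · push Not at h
    left; exact cc_one h

end Pool.Agent.H.MP_2e25e6_lc
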