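import Mathlib

set_option autoImplicit false

/-!
Shannon entropy of functions on a finite weighted probability space, and its submodularity.
-/

namespace Pool.Agent.H.MP_2e25e6_lc

open Finset

/-- `x` if `p` holds, `0` otherwise -/
noncomputable def iv (p : Prop) (x : ℝ) : ℝ := @ite ℝ p (Classical.propDecidable p) x 0

theorem iv_pos {p : Prop} (h : p) (x : ℝ) : iv p x = x := by unfold iv; rw [if_pos h]
theorem iv_neg {p : Prop} (h : ¬ p) (x : ℝ) : iv p x = 0 := by unfold iv; rw [if_neg h]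
theorem iv_eq_ite {p : Prop} [Decidable p] (x : ℝ) : iv p x = if p then x else 0 := by
  by_cases h : p
  · rw [iv_pos h, if_pos h]
  · rw [iv_neg h, if_neg h]
theorem iv_congr {p q : Prop} (h : p ↔ q) (x : ℝ) : iv p x = iv q x := by
  rw [propext h]

variable {Ω : Type*} [Fintype Ω] {α β γ δ : Type*}

/-- the mass of the fibre of `X` through `ω` -/
noncomputable def pr (w : Ω → ℝ) (X : Ω → α) (ω : Ω) : ℝ :=
  ∑ ω', iv (X ω' = X ω) (w ω')

/-- Shannon entropy -/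
noncomputable def ent (w : Ω → ℝ) (X : Ω → α) : ℝ :=
  -∑ ω, w ω * Real.log (pr w X ω)

theorem pr_pos {w : Ω → ℝ} (hw : ∀ ω, 0 < w ω) (X : Ω → α) (ω : Ω) : 0 < pr w X ω := by
  unfold pr
  apply Finset.sum_pos'
  · intro i _
    by_cases h : X i = X ω
    · rw [iv_pos h]; exact (hw i).le
    · rw [iv_neg h]
  · exact ⟨ω, mem_univ _, by rw [iv_pos rfl]; exact hw ω⟩

theorem pr_congr {w : Ω → ℝ} {X : Ω → α} {Y : Ω → β} {ω : Ω}
    (h : ∀ ω', X ω' = X ω ↔ Y ω' = Y ω) : pr w X ω = pr w Y ω := by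
  unfold pr
  apply Finset.sum_congr rfl
  intro i _
  exact iv_congr (h i) _

theorem ent_congr {w : Ω → ℝ} {X : Ω → α} {Y : Ω → β}
    (h : ∀ ω ω', X ω' = X ω ↔ Y ω' = Y ω) : ent w X = ent w Y := by
  unfold ent
  congr 1
  apply Finset.sum_congr rfl
  intro i _
  rw [pr_congr (h i)]

/-- sum over a class of `w / (mass of the class)` is at most one -/
theorem class_sum_le (w : Ω → ℝ) (X : Ω → α) (a : α) :
    ∑ ω, iv (X ω = a) (w ω / pr w X ω) ≤ 1 := by
  have h1 : ∀ ω, iv (X ω = a) (w ω / pr w X ω)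
      = iv (X ω = a) (w ω) / (∑ ω', iv (X ω' = a) (w ω')) := by
    intro ω
    by_cases h : X ω = a
    · rw [iv_pos h, iv_pos h]
      unfold pr
      rw [h]
    · rw [iv_neg h, iv_neg h, zero_div]
  rw [Finset.sum_congr rfl (fun ω _ => h1 ω), ← Finset.sum_div]
  exact div_self_le_one _

theorem submod (w : Ω → ℝ) (hw : ∀ ω, 0 < w ω) (X : Ω → α) (Y : Ω → β) (Z : Ω → γ) :
    ent w Z + ent w (fun ω => (X ω, Y ω, Z ω)) ≤
      ent w (fun ω => (X ω, Z ω)) + ent w (fun ω => (Y ω, Z ω)) := by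
  set pz := pr w Z with hpz
  set pxyz := pr w (fun ω => (X ω, Y ω, Z ω)) with hpxyz
  set pxz := pr w (fun ω => (X ω, Z ω)) with hpxz
  set pyz := pr w (fun ω => (Y ω, Z ω)) with hpyz
  have z0 : ∀ ω, 0 < pz ω := fun ω => pr_pos hw _ ω
  have xyz0 : ∀ ω, 0 < pxyz ω := fun ω => pr_pos hw _ ω
  have xz0 : ∀ ω, 0 < pxz ω := fun ω => pr_pos hw _ ω
  have yz0 : ∀ ω, 0 < pyz ω := fun ω => pr_pos hw _ ω
  -- the key sum
  have key : ∑ ω, w ω * (pxz ω * pyz ω / (pz ω * pxyz ω)) ≤ ∑ ω, w ω := by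
    have e1 : ∀ ω, w ω * (pxz ω * pyz ω / (pz ω * pxyz ω)) =
        ∑ ω₁, ∑ ω₂, iv ((X ω₁, Z ω₁) = (X ω, Z ω)) (w ω₁) *
          iv ((Y ω₂, Z ω₂) = (Y ω, Z ω)) (w ω₂) * (w ω / (pz ω * pxyz ω)) := by
      intro ω
      rw [show w ω * (pxz ω * pyz ω / (pz ω * pxyz ω)) =
        pxz ω * pyz ω * (w ω / (pz ω * pxyz ω)) by ring]
      have a1 : pxz ω = ∑ ω₁, iv ((X ω₁, Z ω₁) = (X ω, Z ω)) (w ω₁) := rfl
      have a2 : pyz ω = ∑ ω₂, iv ((Y ω₂, Z ω₂) = (Y ω, Z ω)) (w ω₂) := rfl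
      rw [a1, a2, Finset.sum_mul_sum, Finset.sum_mul]
      apply Finset.sum_congr rfl
      intro i _
      rw [Finset.sum_mul]
    rw [Finset.sum_congr rfl (fun ω _ => e1 ω)]
    rw [Finset.sum_comm]
    -- fixed ω₁
    apply Finset.sum_le_sum
    intro ω₁ _
    rw [Finset.sum_comm]
    have e2 : ∀ ω₂, ∑ ω, iv ((X ω₁, Z ω₁) = (X ω, Z ω)) (w ω₁) *
          iv ((Y ω₂, Z ω₂) = (Y ω, Z ω)) (w ω₂) * (w ω / (pz ω * pxyz ω)) ≤
        w ω₁ / pz ω₁ * iv (Z ω₂ = Z ω₁) (w ω₂) := by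
      intro ω₂
      by_cases hz : Z ω₂ = Z ω₁
      · rw [iv_pos hz]
        have e3 : ∀ ω, iv ((X ω₁, Z ω₁) = (X ω, Z ω)) (w ω₁) *
            iv ((Y ω₂, Z ω₂) = (Y ω, Z ω)) (w ω₂) * (w ω / (pz ω * pxyz ω)) =
            (w ω₁ / pz ω₁ * w ω₂) *
            iv ((fun ω => (X ω, Y ω, Z ω)) ω = (X ω₁, Y ω₂, Z ω₁)) (w ω / pxyz ω) := by
          intro ω
          by_cases h1 : X ω = X ω₁ ∧ Z ω = Z ω₁
          · by_cases h2 : Y ω = Y ω₂
            · rw [iv_pos (by rw [h1.1, h1.2]), iv_pos (by rw [h2, h1.2, hz]),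
                iv_pos (by simp only [h1.1, h1.2, h2])]
              have : pz ω = pz ω₁ := by
                rw [hpz]; unfold pr; rw [h1.2]
              rw [this]
              field_simp
            · rw [iv_neg (p := (Y ω₂, Z ω₂) = (Y ω, Z ω))
                (fun h => h2 (Prod.ext_iff.1 h).1.symm),
                iv_neg (p := (fun ω => (X ω, Y ω, Z ω)) ω = (X ω₁, Y ω₂, Z ω₁))
                (fun h => h2 (Prod.ext_iff.1 (Prod.ext_iff.1 h).2).1)]
              ring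
          · rw [iv_neg (p := (X ω₁, Z ω₁) = (X ω, Z ω))
              (fun h => h1 ⟨(Prod.ext_iff.1 h).1.symm, (Prod.ext_iff.1 h).2.symm⟩),
              iv_neg (p := (fun ω => (X ω, Y ω, Z ω)) ω = (X ω₁, Y ω₂, Z ω₁))
              (fun h => h1 ⟨(Prod.ext_iff.1 h).1, (Prod.ext_iff.1 (Prod.ext_iff.1 h).2).2⟩)]
            ring
        rw [Finset.sum_congr rfl (fun ω _ => e3 ω), ← Finset.mul_sum]
        have h4 := class_sum_le w (fun ω => (X ω, Y ω, Z ω)) (X ω₁, Y ω₂, Z ω₁)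
        have h5 : 0 ≤ w ω₁ / pz ω₁ * w ω₂ :=
          mul_nonneg (div_nonneg (hw _).le (z0 _).le) (hw _).le
        have h6 := mul_le_mul_of_nonneg_left h4 h5
        rwa [mul_one] at h6
      · rw [iv_neg hz, mul_zero]
        apply le_of_eq
        apply Finset.sum_eq_zero
        intro ω _
        by_cases h1 : (X ω₁, Z ω₁) = (X ω, Z ω)
        · rw [iv_neg (p := (Y ω₂, Z ω₂) = (Y ω, Z ω)), mul_zero, zero_mul]
          intro h2
          apply hz
          have a1 := (Prod.ext_iff.1 h2).2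
          have a2 := (Prod.ext_iff.1 h1).2
          simp only at a1 a2
          rw [a1, a2]
        · rw [iv_neg h1, zero_mul, zero_mul]
    refine (Finset.sum_le_sum (fun ω₂ _ => e2 ω₂)).trans ?_
    rw [← Finset.mul_sum]
    have : ∑ ω₂, iv (Z ω₂ = Z ω₁) (w ω₂) = pz ω₁ := rfl
    rw [this, div_mul_cancel₀ _ (z0 ω₁).ne']
  -- logarithms
  have hlog : ∀ ω, w ω * Real.log (pxz ω) + w ω * Real.log (pyz ω)
      - w ω * Real.log (pz ω) - w ω * Real.log (pxyz ω) ≤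
      w ω * (pxz ω * pyz ω / (pz ω * pxyz ω)) - w ω := by
    intro ω
    have h1 : Real.log (pxz ω * pyz ω / (pz ω * pxyz ω)) =
        Real.log (pxz ω) + Real.log (pyz ω) - Real.log (pz ω) - Real.log (pxyz ω) := by
      rw [Real.log_div (mul_pos (xz0 ω) (yz0 ω)).ne' (mul_pos (z0 ω) (xyz0 ω)).ne',
        Real.log_mul (xz0 ω).ne' (yz0 ω).ne', Real.log_mul (z0 ω).ne' (xyz0 ω).ne']
      ring
    have h2 := Real.log_le_sub_one_of_pos
      (div_pos (mul_pos (xz0 ω) (yz0 ω)) (mul_pos (z0 ω) (xyz0 ω)))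
    rw [h1] at h2
    have h3 := mul_le_mul_of_nonneg_left h2 (hw ω).le
    linarith
  have hsum := Finset.sum_le_sum (fun ω (_ : ω ∈ (univ : Finset Ω)) => hlog ω)
  simp only [Finset.sum_sub_distrib, Finset.sum_add_distrib] at hsum
  unfold ent
  simp only [← hpz, ← hpxyz, ← hpxz, ← hpyz]
  linarith

/-- entropy as a sum over values -/
theorem ent_eq [Fintype α] (w : Ω → ℝ) (X : Ω → α) :
    ent w X = ∑ a, Real.negMulLog (∑ ω, iv (X ω = a) (w ω)) := by
  classical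
  unfold ent
  have h1 : ∀ ω, w ω * Real.log (pr w X ω) =
      ∑ a, iv (X ω = a) (w ω * Real.log (∑ ω', iv (X ω' = a) (w ω'))) := by
    intro ω
    simp only [iv_eq_ite]
    rw [Finset.sum_ite_eq univ (X ω), if_pos (mem_univ _)]
    unfold pr
    simp only [iv_eq_ite]
  rw [Finset.sum_congr rfl (fun ω _ => h1 ω), Finset.sum_comm, ← Finset.sum_neg_distrib]
  apply Finset.sum_congr rfl
  intro a _
  unfold Real.negMulLog
  rw [neg_mul, Finset.sum_mul]
  congr 1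
  apply Finset.sum_congr rfl
  intro ω _
  by_cases h : X ω = a
  · rw [iv_pos h, iv_pos h]
  · rw [iv_neg h, iv_neg h, zero_mul]

end Pool.Agent.H.MP_2e25e6_lc
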