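import Mathlib
import Pool.Agent.H.MP_2e25e6_lc.Ent

set_option autoImplicit false

/-!
The star inequality for local functions of independent seeds on a finite vertex set.
-/

namespace Pool.Agent.H.MP_2e25e6_lc

open Finset

universe u

variable {V E : Type*} [Fintype V] [Fintype E] [DecidableEq V] {α β : Type*} {K K' : Type u}

/-- product weight -/
noncomputable def pw (ν : E → ℝ) (ω : V → E) : ℝ := ∏ v, ν (ω v)

/-- restriction of a configuration -/
def rs (S : Finset V) (ω : V → E) : S → E := fun v => ω v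

theorem rs_eq {S : Finset V} {ω ω' : V → E} : rs S ω = rs S ω' ↔ ∀ v ∈ S, ω v = ω' v := by
  constructor
  · intro h v hv
    exact congrFun h ⟨v, hv⟩
  · intro h
    funext v
    exact h v v.2

/-- conditional entropy given the seeds in `S` -/
noncomputable def cnd (w : (V → E) → ℝ) (X : (V → E) → α) (S : Finset V) : ℝ :=
  ent w (fun ω => (X ω, rs S ω)) - ent w (rs S)

theorem cnd_empty {w : (V → E) → ℝ} (hw : ∑ ω, w ω = 1) (X : (V → E) → α) :
    cnd w X ∅ = ent w X := by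
  unfold cnd
  have h1 : ent w (fun ω => (X ω, rs ∅ ω)) = ent w X := by
    apply ent_congr
    intro ω ω'
    constructor
    · intro h; exact (Prod.ext_iff.1 h).1
    · intro h
      refine Prod.ext h ?_
      exact rs_eq.2 (fun v hv => absurd hv (notMem_empty v))
  have h2 : ent w (rs (∅ : Finset V) : (V → E) → _) = 0 := by
    unfold ent
    have : ∀ ω, pr w (rs (∅ : Finset V) : (V → E) → _) ω = 1 := by
      intro ω
      unfold pr
      rw [← hw]
      apply Finset.sum_congr rfl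
      intro ω' _
      rw [iv_pos]
      exact rs_eq.2 (fun v hv => absurd hv (notMem_empty v))
    simp [this]
  rw [h1, h2, sub_zero]

theorem cnd_univ {w : (V → E) → ℝ} (X : (V → E) → α) : cnd w X univ = 0 := by
  unfold cnd
  rw [sub_eq_zero]
  apply ent_congr
  intro ω ω'
  constructor
  · intro h; exact (Prod.ext_iff.1 h).2
  · intro h
    have : ω' = ω := funext (fun v => rs_eq.1 h v (mem_univ v))
    rw [this]

theorem cnd_anti {w : (V → E) → ℝ} (hw : ∀ ω, 0 < w ω) (X : (V → E) → α) {S T : Finset V}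
    (hST : S ⊆ T) : cnd w X T ≤ cnd w X S := by
  have h := submod w hw X (rs T) (rs S)
  have h1 : ent w (fun ω => (X ω, rs T ω, rs S ω)) = ent w (fun ω => (X ω, rs T ω)) := by
    apply ent_congr
    intro ω ω'
    simp only [Prod.mk.injEq, rs_eq]
    constructor
    · rintro ⟨a, b, _⟩; exact ⟨a, b⟩
    · rintro ⟨a, b⟩; exact ⟨a, b, fun v hv => b v (hST hv)⟩
  have h2 : ent w (fun ω => (rs T ω, rs S ω)) = ent w (rs T) := by
    apply ent_congr
    intro ω ω'
    simp only [Prod.mk.injEq, rs_eq]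
    constructor
    · rintro ⟨b, _⟩; exact b
    · intro b; exact ⟨b, fun v hv => b v (hST hv)⟩
  rw [h1, h2] at h
  unfold cnd
  linarith

theorem drop_mono {w : (V → E) → ℝ} (hw : ∀ ω, 0 < w ω) (X : (V → E) → α) (Y : (V → E) → β)
    (hXY : ∀ ω ω', X ω = X ω' → Y ω = Y ω') {S T : Finset V} (hST : S ⊆ T) :
    cnd w Y S - cnd w Y T ≤ cnd w X S - cnd w X T := by
  have h := submod w hw X (rs T) (fun ω => (Y ω, rs S ω))
  have h1 : ent w (fun ω => (X ω, rs T ω, (Y ω, rs S ω))) = ent w (fun ω => (X ω, rs T ω)) := by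
    apply ent_congr
    intro ω ω'
    simp only [Prod.mk.injEq, rs_eq]
    constructor
    · rintro ⟨a, b, _⟩; exact ⟨a, b⟩
    · rintro ⟨a, b⟩; exact ⟨a, b, hXY _ _ a, fun v hv => b v (hST hv)⟩
  have h2 : ent w (fun ω => (rs T ω, (Y ω, rs S ω))) = ent w (fun ω => (Y ω, rs T ω)) := by
    apply ent_congr
    intro ω ω'
    simp only [Prod.mk.injEq, rs_eq]
    constructor
    · rintro ⟨b, c, _⟩; exact ⟨c, b⟩
    · rintro ⟨c, b⟩; exact ⟨b, c, fun v hv => b v (hST hv)⟩
  have h3 : ent w (fun ω => (X ω, (Y ω, rs S ω))) = ent w (fun ω => (X ω, rs S ω)) := by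
    apply ent_congr
    intro ω ω'
    simp only [Prod.mk.injEq, rs_eq]
    constructor
    · rintro ⟨b, _, c⟩; exact ⟨b, c⟩
    · rintro ⟨b, c⟩; exact ⟨b, hXY _ _ b, c⟩
  rw [h1, h2, h3] at h
  unfold cnd
  linarith

theorem split_sum (ν : E → ℝ) (hν1 : ∑ e, ν e = 1) (s : V) (P : (V → E) → Prop)
    (hP : ∀ ω ω' : V → E, (∀ v, v ≠ s → ω v = ω' v) → (P ω ↔ P ω')) (u : E) :
    ∑ ω : V → E, iv (P ω ∧ ω s = u) (pw ν ω) = ν u * ∑ ω : V → E, iv (P ω) (pw ν ω) := by
  classical
  let e := Equiv.funSplitAt s E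
  have hes : ∀ (a : E) (r : {j // j ≠ s} → E), e.symm (a, r) s = a := by
    intro a r
    simp [e, Equiv.funSplitAt, Equiv.piSplitAt]
  have hej : ∀ (a : E) (r : {j // j ≠ s} → E) (j : V) (hj : j ≠ s),
      e.symm (a, r) j = r ⟨j, hj⟩ := by
    intro a r j hj
    simp [e, Equiv.funSplitAt, Equiv.piSplitAt, hj]
  have hPe : ∀ (a b : E) (r : {j // j ≠ s} → E), P (e.symm (a, r)) ↔ P (e.symm (b, r)) := by
    intro a b r
    apply hP
    intro v hv
    rw [hej a r v hv, hej b r v hv]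
  have hwe : ∀ (a : E) (r : {j // j ≠ s} → E),
      pw ν (e.symm (a, r)) = ν a * ∏ j, ν (r j) := by
    intro a r
    unfold pw
    rw [Fintype.prod_eq_mul_prod_subtype_ne _ s, hes]
    congr 1
    apply Finset.prod_congr rfl
    intro j _
    rw [hej a r j.1 j.2]
  rw [← e.symm.sum_comp, ← e.symm.sum_comp, Fintype.sum_prod_type, Fintype.sum_prod_type]
  have l1 : ∀ a : E, ∑ r, iv (P (e.symm (a, r)) ∧ e.symm (a, r) s = u) (pw ν (e.symm (a, r))) =
      if a = u then ν u * ∑ r : {j // j ≠ s} → E, iv (P (e.symm (u, r))) (∏ j, ν (r j)) else 0 := by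
    intro a
    split_ifs with hau
    · subst hau
      rw [Finset.mul_sum]
      apply Finset.sum_congr rfl
      intro r _
      by_cases hp : P (e.symm (a, r))
      · rw [iv_pos ⟨hp, hes a r⟩, iv_pos hp, hwe]
      · rw [iv_neg (fun h => hp h.1), iv_neg hp, mul_zero]
    · apply Finset.sum_eq_zero
      intro r _
      rw [iv_neg]
      rintro ⟨_, h⟩
      rw [hes] at h
      exact hau h
  have l2 : ∀ a : E, ∑ r, iv (P (e.symm (a, r))) (pw ν (e.symm (a, r))) =
      ν a * ∑ r : {j // j ≠ s} → E, iv (P (e.symm (u, r))) (∏ j, ν (r j)) := by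
    intro a
    rw [Finset.mul_sum]
    apply Finset.sum_congr rfl
    intro r _
    by_cases hp : P (e.symm (a, r))
    · rw [iv_pos hp, iv_pos ((hPe a u r).1 hp), hwe]
    · rw [iv_neg hp, iv_neg (fun h => hp ((hPe a u r).2 h)), mul_zero]
  rw [Finset.sum_congr rfl (fun a _ => l1 a), Finset.sum_ite_eq' univ u, if_pos (mem_univ _),
    Finset.sum_congr rfl (fun a _ => l2 a), ← Finset.sum_mul, hν1, one_mul]

theorem pw_pos {ν : E → ℝ} (hν : ∀ e, 0 < ν e) (ω : V → E) : 0 < pw ν ω :=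
  Finset.prod_pos (fun v _ => hν _)

theorem pw_sum {ν : E → ℝ} (hν1 : ∑ e, ν e = 1) : ∑ ω : V → E, pw ν ω = 1 := by
  unfold pw
  rw [← Fintype.piFinset_univ, Finset.sum_prod_piFinset]
  simp [hν1]

theorem ent_insert (ν : E → ℝ) (hν : ∀ e, 0 < ν e) (hν1 : ∑ e, ν e = 1) (s : V)
    (X : (V → E) → α) (hX : ∀ ω ω' : V → E, (∀ v, v ≠ s → ω v = ω' v) → X ω = X ω')
    (S : Finset V) (hs : s ∉ S) :
    ent (pw ν) (fun ω => (X ω, rs (insert s S) ω)) =
      ent (pw ν) (fun ω => (X ω, rs S ω)) - ∑ ω : V → E, pw ν ω * Real.log (ν (ω s)) := by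
  have h : ∀ ω, pr (pw ν) (fun ω => (X ω, rs (insert s S) ω)) ω =
      ν (ω s) * pr (pw ν) (fun ω => (X ω, rs S ω)) ω := by
    intro ω
    have := split_sum ν hν1 s (fun ω' => (X ω', rs S ω') = (X ω, rs S ω)) (by
      intro ω₁ ω₂ h12
      have a1 := hX ω₁ ω₂ h12
      have a2 : rs S ω₁ = rs S ω₂ := rs_eq.2 (fun v hv => h12 v (fun h => hs (h ▸ hv)))
      simp only [a1, a2]) (ω s)
    unfold pr
    rw [← this]
    apply Finset.sum_congr rfl
    intro ω' _
    apply iv_congr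
    simp only [Prod.mk.injEq, rs_eq, mem_insert, forall_eq_or_imp]
    tauto
  unfold ent
  have h2 : ∀ ω, pw ν ω * Real.log (pr (pw ν) (fun ω => (X ω, rs (insert s S) ω)) ω) =
      pw ν ω * Real.log (ν (ω s)) +
        pw ν ω * Real.log (pr (pw ν) (fun ω => (X ω, rs S ω)) ω) := by
    intro ω
    rw [h ω, Real.log_mul (hν _).ne' (pr_pos (fun ω => pw_pos hν ω) _ ω).ne']
    ring
  rw [Finset.sum_congr rfl (fun ω _ => h2 ω), Finset.sum_add_distrib]
  ring

theorem drop_zero (ν : E → ℝ) (hν : ∀ e, 0 < ν e) (hν1 : ∑ e, ν e = 1) (s : V)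
    (X : (V → E) → α) (hX : ∀ ω ω' : V → E, (∀ v, v ≠ s → ω v = ω' v) → X ω = X ω')
    (S : Finset V) (hs : s ∉ S) :
    cnd (pw ν) X S - cnd (pw ν) X (insert s S) = 0 := by
  have h1 := ent_insert ν hν hν1 s X hX S hs
  have h2 := ent_insert ν hν hν1 s (fun _ => ()) (fun _ _ _ => rfl) S hs
  have e1 : ∀ T : Finset V, ent (pw ν) (fun ω : V → E => ((), rs T ω)) = ent (pw ν) (rs T) := by
    intro T
    apply ent_congr
    intro ω ω'
    simp
  rw [e1, e1] at h2
  unfold cnd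
  rw [h1, h2]
  ring

/-- the star inequality -/
theorem star_ineq (ν : E → ℝ) (hν : ∀ e, 0 < ν e) (hν1 : ∑ e, ν e = 1) (n : ℕ)
    (Z : V → (V → E) → K) (X : V → (V → E) → K') (c : V → V → V)
    (hc : ∀ g s ω ω', X g ω = X g ω' → Z (c g s) ω = Z (c g s) ω')
    (N : V → V → Prop)
    (hN : ∀ v s, ¬ N v s → ∀ ω ω' : V → E, (∀ t, t ≠ s → ω t = ω' t) → Z v ω = Z v ω')
    (hcount : ∀ v s, N v s → n ≤ (univ.filter (fun g => c g s = v)).card) :
    n * ∑ v, ent (pw ν) (Z v) ≤ ∑ g, ent (pw ν) (X g) := by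
  classical
  set w : (V → E) → ℝ := pw ν with hwdef
  have hw : ∀ ω, 0 < w ω := fun ω => pw_pos hν ω
  have hw1 : ∑ ω, w ω = 1 := pw_sum hν1
  let e : V ≃ Fin (Fintype.card V) := Fintype.equivFin V
  let Sk : ℕ → Finset V := fun k => univ.filter (fun v => (e v : ℕ) < k)
  have hSk0 : Sk 0 = ∅ := by simp [Sk]
  have hSkN : Sk (Fintype.card V) = univ := by
    ext v
    simp [Sk]
  have hSks : ∀ s : V, Sk ((e s : ℕ) + 1) = insert s (Sk (e s)) := by
    intro s
    ext v
    simp only [Sk, mem_filter, mem_univ, true_and, mem_insert]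
    constructor
    · intro h
      rcases Nat.lt_succ_iff_lt_or_eq.1 h with h | h
      · right; exact h
      · left; exact e.injective (Fin.ext h)
    · rintro (rfl | h)
      · omega
      · omega
  have hsS : ∀ s : V, s ∉ Sk (e s) := by
    intro s
    simp [Sk]
  have htot : ∀ {κ : Type u} (Y : (V → E) → κ),
      ent w Y = ∑ s, (cnd w Y (Sk (e s)) - cnd w Y (Sk ((e s : ℕ) + 1))) := by
    intro κ Y
    have h1 : ∑ s, (cnd w Y (Sk (e s)) - cnd w Y (Sk ((e s : ℕ) + 1))) =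
        ∑ k : Fin (Fintype.card V), (cnd w Y (Sk k) - cnd w Y (Sk ((k : ℕ) + 1))) :=
      Equiv.sum_comp e (fun k : Fin (Fintype.card V) => cnd w Y (Sk k) - cnd w Y (Sk ((k : ℕ) + 1)))
    rw [h1, Fin.sum_univ_eq_sum_range (fun k => cnd w Y (Sk k) - cnd w Y (Sk (k + 1))),
      Finset.sum_range_sub', hSk0, hSkN, cnd_empty hw1, cnd_univ, sub_zero]
  let Δ : V → V → ℝ := fun s v => cnd w (Z v) (Sk (e s)) - cnd w (Z v) (Sk ((e s : ℕ) + 1))
  have hsub : ∀ s, Sk (e s) ⊆ Sk ((e s : ℕ) + 1) := by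
    intro s
    rw [hSks]
    exact subset_insert _ _
  have hΔ0 : ∀ s v, 0 ≤ Δ s v := fun s v => sub_nonneg.2 (cnd_anti hw _ (hsub s))
  have hΔz : ∀ s v, ¬ N v s → Δ s v = 0 := by
    intro s v h
    simp only [Δ]
    rw [hSks]
    exact drop_zero ν hν hν1 s (Z v) (hN v s h) _ (hsS s)
  have hΔX : ∀ s g, Δ s (c g s) ≤
      cnd w (X g) (Sk (e s)) - cnd w (X g) (Sk ((e s : ℕ) + 1)) :=
    fun s g => drop_mono hw (X g) (Z (c g s)) (hc g s) (hsub s)
  calc n * ∑ v, ent w (Z v) = ∑ v, ∑ s, n * Δ s v := by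
        rw [Finset.mul_sum]
        apply Finset.sum_congr rfl
        intro v _
        rw [htot (Z v), Finset.mul_sum]
    _ = ∑ s, ∑ v, n * Δ s v := Finset.sum_comm
    _ ≤ ∑ s, ∑ v, ((univ.filter (fun g => c g s = v)).card : ℝ) * Δ s v := by
        apply Finset.sum_le_sum; intro s _
        apply Finset.sum_le_sum; intro v _
        by_cases h : N v s
        · exact mul_le_mul_of_nonneg_right (by exact_mod_cast hcount v s h) (hΔ0 s v)
        · rw [hΔz s v h, mul_zero, mul_zero]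
    _ = ∑ s, ∑ g, Δ s (c g s) := by
        apply Finset.sum_congr rfl; intro s _
        have h1 : ∀ v, ((univ.filter (fun g => c g s = v)).card : ℝ) * Δ s v =
            ∑ g ∈ univ.filter (fun g => c g s = v), Δ s (c g s) := by
          intro v
          rw [Finset.sum_congr rfl (g := fun _ => Δ s v)
            (fun g hg => by rw [(mem_filter.1 hg).2]), Finset.sum_const, nsmul_eq_mul]
        rw [Finset.sum_congr rfl (fun v _ => h1 v), Finset.sum_fiberwise]
    _ ≤ ∑ s, ∑ g, (cnd w (X g) (Sk (e s)) - cnd w (X g) (Sk ((e s : ℕ) + 1))) := by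
        apply Finset.sum_le_sum; intro s _
        apply Finset.sum_le_sum; intro g _
        exact hΔX s g
    _ = ∑ g, ∑ s, (cnd w (X g) (Sk (e s)) - cnd w (X g) (Sk ((e s : ℕ) + 1))) := Finset.sum_comm
    _ = ∑ g, ent w (X g) := by
        apply Finset.sum_congr rfl; intro g _
        rw [htot (X g)]

end Pool.Agent.H.MP_2e25e6_lc
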