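import Mathlib
import Pool.Agent.H.MP_2e25e6_lc.Star
import Pool.Agent.H.MP_2e25e6_lc.Quot

set_option autoImplicit false

/-!
The star entropy inequality for finite-range factors of i.i.d. processes on the free group.
-/

namespace Pool.Agent.H.MP_2e25e6_lc

open Finset MeasureTheory
open FreeGroup (of)

abbrev FG (n : ℕ) := FreeGroup (Fin n)

/-- the Bernoulli shift -/
def shift {n : ℕ} {E : Type} (g : FG n) (x : FG n → E) : FG n → E := fun h => x (h * g)

/-- a factor together with its values at the out-neighbours -/
def XX {n : ℕ} {E K : Type} (φ : (FG n → E) → K) (x : FG n → E) : K × (Fin n → K) :=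
  (φ x, fun i => φ (shift (of i) x))

variable {E : Type} [Fintype E] [MeasurableSpace E] [MeasurableSingletonClass E]

theorem map_comp_injective (ν : Measure E) [IsProbabilityMeasure ν] {κ B : Type} (j : B → κ)
    (hj : Function.Injective j) :
    (Measure.infinitePi (fun _ : κ => ν)).map (fun U b => U (j b)) =
      Measure.infinitePi (fun _ : B => ν) := by
  classical
  have hm : Measurable (fun (U : κ → E) (b : B) => U (j b)) :=
    measurable_pi_lambda _ (fun b => measurable_pi_apply _)
  apply Measure.eq_infinitePi
  intro s t ht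
  rw [Measure.map_apply hm (MeasurableSet.pi s.countable_toSet fun i _ => ht i)]
  let t' : κ → Set E := Function.extend j t (fun _ => Set.univ)
  have ht'j : ∀ b, t' (j b) = t b := fun b => hj.extend_apply _ _ _
  have hpre : (fun (U : κ → E) (b : B) => U (j b)) ⁻¹' (Set.pi s t) =
      Set.pi ((s.map ⟨j, hj⟩ : Finset κ) : Set κ) t' := by
    ext U
    simp only [Set.mem_preimage, Set.mem_pi, Finset.mem_coe, Finset.mem_map,
      Function.Embedding.coeFn_mk]
    constructor
    · rintro h k ⟨b, hb, rfl⟩
      rw [ht'j]; exact h b hb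
    · intro h b hb
      have := h (j b) ⟨b, hb, rfl⟩
      rwa [ht'j] at this
  rw [hpre, Measure.infinitePi_pi]
  · rw [Finset.prod_map]
    apply Finset.prod_congr rfl
    intro b _
    simp only [Function.Embedding.coeFn_mk, ht'j]
  · intro k hk
    rw [Finset.mem_map] at hk
    obtain ⟨b, _, rfl⟩ := hk
    simp only [Function.Embedding.coeFn_mk, ht'j]
    exact ht b

/-- laws of local functions do not depend on the ambient index set -/
theorem law_eq (ν : Measure E) [IsProbabilityMeasure ν] {κ κ' B : Type} [Fintype B]
    (j : B → κ) (hj : Function.Injective j) (j' : B → κ') (hj' : Function.Injective j')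
    (S : Set (B → E)) :
    (Measure.infinitePi (fun _ : κ => ν)).real {U | (fun b => U (j b)) ∈ S} =
      (Measure.infinitePi (fun _ : κ' => ν)).real {U | (fun b => U (j' b)) ∈ S} := by
  have hS : MeasurableSet S := S.toFinite.measurableSet
  have h1 := map_comp_injective ν j hj
  have h2 := map_comp_injective ν j' hj'
  have m1 : Measurable (fun (U : κ → E) (b : B) => U (j b)) :=
    measurable_pi_lambda _ (fun b => measurable_pi_apply _)
  have m2 : Measurable (fun (U : κ' → E) (b : B) => U (j' b)) :=
    measurable_pi_lambda _ (fun b => measurable_pi_apply _)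
  have e1 : (Measure.infinitePi (fun _ : κ => ν)).real {U | (fun b => U (j b)) ∈ S} =
      (Measure.infinitePi (fun _ : B => ν)).real S := by
    rw [← h1, Measure.real, Measure.real, Measure.map_apply m1 hS]
    rfl
  have e2 : (Measure.infinitePi (fun _ : κ' => ν)).real {U | (fun b => U (j' b)) ∈ S} =
      (Measure.infinitePi (fun _ : B => ν)).real S := by
    rw [← h2, Measure.real, Measure.real, Measure.map_apply m2 hS]
    rfl
  rw [e1, e2]

/-- finite product measure as a weighted sum -/
theorem real_eq_sum (ν : Measure E) [IsProbabilityMeasure ν] {V : Type} [Fintype V] [DecidableEq V]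
    (S : Set (V → E)) :
    (Measure.infinitePi (fun _ : V => ν)).real S =
      ∑ ω : V → E, iv (ω ∈ S) (pw (fun e => ν.real {e}) ω) := by
  classical
  have h1 : S = ((univ.filter (fun ω => ω ∈ S) : Finset (V → E)) : Set (V → E)) := by
    ext ω; simp
  conv_lhs => rw [h1]
  rw [← sum_measureReal_singleton, Finset.sum_filter]
  apply Finset.sum_congr rfl
  intro ω _
  rw [iv_eq_ite]
  congr 1
  unfold pw
  rw [Measure.real, Measure.infinitePi_singleton_of_fintype, ENNReal.toReal_prod]
  rfl

theorem EI (n : ℕ) (ν : Measure E) [IsProbabilityMeasure ν] (hν : ∀ e, 0 < ν.real {e})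
    {K : Type} [Fintype K] (φ : (FG n → E) → K) (B : Finset (FG n))
    (hφ : ∀ x y : FG n → E, (∀ b ∈ B, x b = y b) → φ x = φ y) :
    n * ∑ k, Real.negMulLog ((Measure.infinitePi (fun _ : FG n => ν)).real {x | φ x = k}) ≤
      ∑ a, Real.negMulLog ((Measure.infinitePi (fun _ : FG n => ν)).real {x | XX φ x = a}) := by
  classical
  have hE : Nonempty E := by
    by_contra hne
    rw [not_nonempty_iff] at hne
    have h1 : ν Set.univ = 1 := measure_univ
    rw [Set.univ_eq_empty_iff.2 hne, measure_empty] at h1
    exact zero_ne_one h1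
  obtain ⟨e0⟩ := hE
  set μ := Measure.infinitePi (fun _ : FG n => ν) with hμ
  -- the finite set carrying the star
  let B1 : Finset (FG n) := B ∪ univ.biUnion (fun i : Fin n => B.image (fun b => b * of i))
  let B2 : Finset (FG n) := B1 ∪ insert 1 (univ.image (fun i : Fin n => (of i : FG n)))
  obtain ⟨G, iG, iF, π, hπ⟩ := exists_quot n B2
  have hBB1 : ∀ b ∈ B, b ∈ B1 := fun b hb => Finset.mem_union_left _ hb
  have hBi : ∀ b ∈ B, ∀ i, b * of i ∈ B1 := by
    intro b hb i
    apply Finset.mem_union_right
    rw [Finset.mem_biUnion]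
    exact ⟨i, mem_univ _, Finset.mem_image_of_mem _ hb⟩
  have hB1B2 : ∀ b ∈ B1, b ∈ B2 := fun b hb => Finset.mem_union_left _ hb
  have h1B2 : (1 : FG n) ∈ B2 := Finset.mem_union_right _ (Finset.mem_insert_self _ _)
  have hiB2 : ∀ i : Fin n, (of i : FG n) ∈ B2 := fun i =>
    Finset.mem_union_right _ (Finset.mem_insert_of_mem (Finset.mem_image_of_mem _ (mem_univ i)))
  let θ : G → (G → E) → (FG n → E) := fun g U h => U (π h * g)
  let Z : G → (G → E) → K := fun g U => φ (θ g U)
  let X : G → (G → E) → K × (Fin n → K) := fun g U => XX φ (θ g U)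
  have hshift : ∀ g U i, shift (of i) (θ g U) = θ (π (of i) * g) U := by
    intro g U i
    funext h
    simp only [shift, θ, map_mul, mul_assoc]
  have hXdef : ∀ g U, X g U = (Z g U, fun i => Z (π (of i) * g) U) := by
    intro g U
    simp only [X, XX, Z, hshift]
  have hXX : ∀ x y : FG n → E, (∀ b ∈ B1, x b = y b) → XX φ x = XX φ y := by
    intro x y h
    unfold XX
    refine Prod.ext ?_ ?_
    · exact hφ x y (fun b hb => h b (hBB1 b hb))
    · funext i
      apply hφ
      intro b hb
      exact h _ (hBi b hb i)
  -- laws
  let ext1 : (B1 → E) → (FG n → E) := fun y g => if h : g ∈ B1 then y ⟨g, h⟩ else e0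
  have hext1 : ∀ (x : FG n → E) (b : FG n), b ∈ B1 → x b = ext1 (fun c : B1 => x c) b := by
    intro x b hb
    simp only [ext1, hb, dif_pos]
  have hinj : ∀ g : G, Function.Injective (fun b : B1 => π b * g) := by
    intro g b b' h
    have h' := mul_right_cancel h
    exact Subtype.ext (hπ (hB1B2 _ b.2) (hB1B2 _ b'.2) h')
  have lawX : ∀ (g : G) (a : K × (Fin n → K)),
      ∑ U, iv (X g U = a) (pw (fun e => ν.real {e}) U) = μ.real {x | XX φ x = a} := by
    intro g a
    have h1 := law_eq ν (fun b : B1 => π b * g) (hinj g) (fun b : B1 => (b : FG n))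
      Subtype.val_injective {y | XX φ (ext1 y) = a}
    have h2 : {U : G → E | (fun b : B1 => U (π b * g)) ∈ {y | XX φ (ext1 y) = a}} =
        {U | X g U = a} := by
      ext U
      simp only [Set.mem_ofPred_eq]
      have : XX φ (ext1 (fun b : B1 => U (π b * g))) = X g U := by
        apply hXX
        intro b hb
        simp only [ext1, hb, dif_pos, θ]
      rw [this]
    have h3 : {x : FG n → E | (fun b : B1 => x b) ∈ {y | XX φ (ext1 y) = a}} =
        {x | XX φ x = a} := by
      ext x
      simp only [Set.mem_ofPred_eq]
      have : XX φ (ext1 (fun b : B1 => x b)) = XX φ x := by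
        apply hXX
        intro b hb
        exact (hext1 x b hb).symm
      rw [this]
    rw [h2, h3, real_eq_sum] at h1
    rw [← h1]
    rfl
  have lawZ : ∀ (g : G) (k : K),
      ∑ U, iv (Z g U = k) (pw (fun e => ν.real {e}) U) = μ.real {x | φ x = k} := by
    intro g k
    have h1 := law_eq ν (fun b : B1 => π b * g) (hinj g) (fun b : B1 => (b : FG n))
      Subtype.val_injective {y | φ (ext1 y) = k}
    have h2 : {U : G → E | (fun b : B1 => U (π b * g)) ∈ {y | φ (ext1 y) = k}} =
        {U | Z g U = k} := by
      ext U
      simp only [Set.mem_ofPred_eq]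
      have : φ (ext1 (fun b : B1 => U (π b * g))) = Z g U := by
        apply hφ
        intro b hb
        simp only [ext1, hBB1 b hb, dif_pos, θ]
      rw [this]
    have h3 : {x : FG n → E | (fun b : B1 => x b) ∈ {y | φ (ext1 y) = k}} =
        {x | φ x = k} := by
      ext x
      simp only [Set.mem_ofPred_eq]
      have : φ (ext1 (fun b : B1 => x b)) = φ x := by
        apply hφ
        intro b hb
        exact (hext1 x b (hBB1 b hb)).symm
      rw [this]
    rw [h2, h3, real_eq_sum] at h1
    rw [← h1]
    rfl
  have hν1 : ∑ e, ν.real {e} = 1 := by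
    rw [sum_measureReal_singleton]
    simp
  -- the choice of the closest vertex
  let c : G → G → G := fun g s =>
    if h : ∃ b ∈ B1, s = π b * g then π (cc h.choose) * g else g
  have hcval : ∀ g s, c g s = g ∨ ∃ i, c g s = π (of i) * g := by
    intro g s
    simp only [c]
    split_ifs with h
    · rcases cc_cases h.choose with h1 | ⟨i, h1⟩
      · left; rw [h1, map_one, one_mul]
      · right; exact ⟨i, by rw [h1]⟩
    · left; rfl
  have hcb : ∀ g s, ∀ b ∈ B1, s = π b * g → c g s = π (cc b) * g := by
    intro g s b hb hs
    have hex : ∃ b ∈ B1, s = π b * g := ⟨b, hb, hs⟩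
    simp only [c]
    rw [dif_pos hex]
    have h2 := hex.choose_spec
    have h3 : π hex.choose = π b := mul_right_cancel (h2.2.symm.trans hs)
    rw [hπ (hB1B2 _ h2.1) (hB1B2 _ hb) h3]
  have hcX : ∀ g s ω ω', X g ω = X g ω' → Z (c g s) ω = Z (c g s) ω' := by
    intro g s ω ω' h
    rw [hXdef, hXdef] at h
    rcases hcval g s with h1 | ⟨i, h1⟩
    · rw [h1]; exact (Prod.ext_iff.1 h).1
    · rw [h1]; exact congrFun (Prod.ext_iff.1 h).2 i
  have hN : ∀ v s, ¬ (∃ b ∈ B, s = π b * v) → ∀ ω ω' : G → E, (∀ t, t ≠ s → ω t = ω' t) →
      Z v ω = Z v ω' := by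
    intro v s hns ω ω' h
    apply hφ
    intro b hb
    simp only [θ]
    apply h
    intro hbs
    exact hns ⟨b, hb, hbs.symm⟩
  have hcount : ∀ v s, (∃ b ∈ B, s = π b * v) →
      n ≤ (univ.filter (fun g => c g s = v)).card := by
    rintro v s ⟨b, hb, rfl⟩
    let o : Option (Fin n) → G := fun o => match o with
      | none => v
      | some i => (π (of i))⁻¹ * v
    have hoinj : Function.Injective o := by
      have hπ1 : ∀ i : Fin n, π (of i) ≠ 1 := by
        intro i h
        rw [← map_one π] at h
        have := hπ (hiB2 i) h1B2 h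
        exact FreeGroup.of_ne_one i this
      rintro (_ | i) (_ | i') h
      · rfl
      · simp only [o] at h
        exfalso
        apply hπ1 i'
        have : (π (of i'))⁻¹ = 1 := by
          have h2 : (1 : G) * v = (π (of i'))⁻¹ * v := by rw [one_mul]; exact h
          exact (mul_right_cancel h2).symm
        exact inv_eq_one.1 this
      · simp only [o] at h
        exfalso
        apply hπ1 i
        have : (π (of i))⁻¹ = 1 := by
          have h2 : (π (of i))⁻¹ * v = (1 : G) * v := by rw [one_mul]; exact h
          exact mul_right_cancel h2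
        exact inv_eq_one.1 this
      · simp only [o] at h
        have h2 := inv_injective (mul_right_cancel h)
        have h3 := hπ (hiB2 i) (hiB2 i') h2
        rw [FreeGroup.of_injective h3]
    let bad : Option (Fin n) → Prop := fun o => match o with
      | none => ∃ j, fl b = some (j, false)
      | some i => fl b = some (i, true)
    have hgood : ∀ x, ¬ bad x → c (o x) (π b * v) = v := by
      rintro (_ | i) hx
      · simp only [bad, not_exists] at hx
        simp only [o]
        rw [hcb v (π b * v) b (hBB1 b hb) rfl, cc_one hx, map_one, one_mul]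
      · simp only [bad] at hx
        simp only [o]
        rw [hcb _ (π b * v) (b * of i) (hBi b hb i) (by rw [map_mul]; group),
          cc_of_false (fl_mul_of b i hx)]
        group
    have hbad1 : ∀ x y, bad x → bad y → x = y := by
      rintro (_ | i) (_ | i') hx hy
      · rfl
      · simp only [bad] at hx hy
        obtain ⟨j, hj⟩ := hx
        rw [hj] at hy
        simp at hy
      · simp only [bad] at hx hy
        obtain ⟨j, hj⟩ := hy
        rw [hj] at hx
        simp at hx
      · simp only [bad] at hx hy
        rw [hx] at hy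
        simp only [Option.some.injEq, Prod.mk.injEq, and_true] at hy
        rw [hy]
    have hcardgood : n ≤ (univ.filter (fun x => ¬ bad x)).card := by
      have h1 : (univ.filter (fun x => bad x)).card ≤ 1 := by
        rw [Finset.card_le_one]
        intro x hx y hy
        exact hbad1 x y (mem_filter.1 hx).2 (mem_filter.1 hy).2
      have h2 := Finset.card_filter_add_card_filter_not (s := (univ : Finset (Option (Fin n))))
        (fun x => bad x)
      rw [Finset.card_univ, Fintype.card_option, Fintype.card_fin] at h2
      omega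
    refine hcardgood.trans ?_
    apply Finset.card_le_card_of_injOn o
    · intro x hx
      rw [mem_coe, mem_filter] at hx
      rw [mem_coe, mem_filter]
      exact ⟨mem_univ _, hgood x hx.2⟩
    · exact hoinj.injOn
  have hmain := star_ineq (fun e => ν.real {e}) hν hν1 n Z X c hcX
    (fun v s => ∃ b ∈ B, s = π b * v) hN hcount
  have hZ : ∀ g, ent (pw (fun e => ν.real {e})) (Z g) =
      ∑ k, Real.negMulLog (μ.real {x | φ x = k}) := by
    intro g
    rw [ent_eq]
    apply Finset.sum_congr rfl
    intro k _
    rw [lawZ g k]
  have hX : ∀ g, ent (pw (fun e => ν.real {e})) (X g) =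
      ∑ a, Real.negMulLog (μ.real {x | XX φ x = a}) := by
    intro g
    rw [ent_eq]
    apply Finset.sum_congr rfl
    intro k _
    rw [lawX g k]
  rw [Finset.sum_congr rfl (fun g _ => hZ g), Finset.sum_congr rfl (fun g _ => hX g),
    Finset.sum_const, Finset.sum_const, nsmul_eq_mul, nsmul_eq_mul] at hmain
  have hpos : (0 : ℝ) < (univ : Finset G).card := by
    rw [Finset.card_univ]
    exact_mod_cast Fintype.card_pos
  nlinarith

end Pool.Agent.H.MP_2e25e6_lc
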