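import Mathlib
import Pool.Agent.H.MP_2e25e6_lc.Ent

set_option autoImplicit false

/-!
The limiting finite-dimensional contradiction.
-/

namespace Pool.Agent.H.MP_2e25e6_lc

open Finset

abbrev W := Bool × Bool
abbrev T (n : ℕ) := W × (Fin n → W)

/-- the NOR rule -/
def nor {n : ℕ} (y : Fin n → Bool) : Bool := decide (∀ i, y i = false)

/-- rule for pairs -/
def nor2 {n : ℕ} (y : Fin n → W) : W := (nor (fun i => (y i).1), nor (fun i => (y i).2))

/-- Gibbs' inequality, pointwise, with equality case -/
theorem gibbs_pt {a m : ℝ} (ha : 0 ≤ a) (hm : 0 ≤ m) (ham : m = 0 → a = 0) :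
    Real.negMulLog a + a * Real.log m ≤ m - a ∧
      (Real.negMulLog a + a * Real.log m = m - a → a = m) := by
  unfold Real.negMulLog
  rcases eq_or_lt_of_le ha with h | h
  · subst h
    simp only [neg_zero, zero_mul, add_zero, sub_zero]
    exact ⟨hm, fun h => h⟩
  · have hm' : 0 < m := lt_of_le_of_ne hm (fun h0 => h.ne' (ham h0.symm))
    have h1 : -a * Real.log a + a * Real.log m = a * Real.log (m / a) := by
      rw [Real.log_div hm'.ne' h.ne']; ring
    have h2 : a * (m / a - 1) = m - a := by field_simp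
    rw [h1]
    constructor
    · rw [← h2]
      exact mul_le_mul_of_nonneg_left (Real.log_le_sub_one_of_pos (div_pos hm' h)) h.le
    · intro he
      by_contra hne
      have hne' : m / a ≠ 1 := by
        intro h3
        apply hne
        rw [div_eq_one_iff_eq h.ne'] at h3
        exact h3.symm
      have h3 := Real.log_lt_sub_one_of_pos (div_pos hm' h) hne'
      have h4 := mul_lt_mul_of_pos_left h3 h
      rw [h2] at h4
      linarith

theorem sum_pi_prod {n : ℕ} (m : W → ℝ) (P : W → Prop) :
    ∑ y : Fin n → W, iv (∀ i, P (y i)) (∏ i, m (y i)) = (∑ b, iv (P b) (m b)) ^ n := by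
  classical
  have h1 : ∀ y : Fin n → W, iv (∀ i, P (y i)) (∏ i, m (y i)) = ∏ i, iv (P (y i)) (m (y i)) := by
    intro y
    by_cases h : ∀ i, P (y i)
    · rw [iv_pos h]
      apply Finset.prod_congr rfl
      intro i _
      rw [iv_pos (h i)]
    · rw [iv_neg h]
      push Not at h
      obtain ⟨i, hi⟩ := h
      exact (Finset.prod_eq_zero (mem_univ i) (iv_neg hi _)).symm
  rw [Finset.sum_congr rfl (fun y _ => h1 y)]
  rw [← Fintype.piFinset_univ, ← Finset.prod_univ_sum (fun _ => univ) (fun _ b => iv (P b) (m b))]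
  rw [Finset.prod_const, Finset.card_univ, Fintype.card_fin]

theorem finite_contradiction (n : ℕ) (hn : 2 ≤ n) (q : T n → ℝ) (hq0 : ∀ a, 0 ≤ q a)
    (hq1 : ∑ a, q a = 1) (m : W → ℝ) (hm : ∀ b, m b = ∑ a, iv (a.1 = b) (q a))
    (hmi : ∀ i b, m b = ∑ a, iv (a.2 i = b) (q a))
    (hent : n * ∑ b, Real.negMulLog (m b) ≤ ∑ a, Real.negMulLog (q a))
    (hrule : ∀ a, a.1 ≠ nor2 a.2 → q a = 0) (p : ℝ) (hp0 : 0 < p) (hp1 : p < 1)
    (h1 : m (true, true) + m (true, false) = p) (h2 : m (true, true) + m (false, true) = p)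
    (h3 : m (true, true) = (p + p ^ 2) / 2) : False := by
  classical
  set q2 : (Fin n → W) → ℝ := fun y => q (nor2 y, y) with hq2
  have hq20 : ∀ y, 0 ≤ q2 y := fun y => hq0 _
  -- sums over T
  have hsum : ∀ F : T n → ℝ, (∀ a, q a = 0 → F a = 0) →
      ∑ a, F a = ∑ y, F (nor2 y, y) := by
    intro F hF
    rw [Fintype.sum_prod_type, Finset.sum_comm]
    apply Finset.sum_congr rfl
    intro y _
    rw [Finset.sum_eq_single (nor2 y)]
    · intro b _ hb
      exact hF _ (hrule (b, y) hb)
    · intro h; exact absurd (mem_univ _) h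
  have iv0 : ∀ (P : Prop) (x : ℝ), x = 0 → iv P x = 0 := by
    intro P x hx
    by_cases h : P
    · rw [iv_pos h, hx]
    · rw [iv_neg h]
  have hm' : ∀ b, m b = ∑ y, iv (nor2 y = b) (q2 y) := by
    intro b
    rw [hm b, hsum (fun a => iv (a.1 = b) (q a)) (fun a h => iv0 _ _ h)]
  have hmi' : ∀ i b, m b = ∑ y, iv (y i = b) (q2 y) := by
    intro i b
    rw [hmi i b, hsum (fun a => iv (a.2 i = b) (q a)) (fun a h => iv0 _ _ h)]
  have hent' : n * ∑ b, Real.negMulLog (m b) ≤ ∑ y, Real.negMulLog (q2 y) := by
    rw [hsum (fun a => Real.negMulLog (q a)) (fun a h => by simp only [h, Real.negMulLog_zero])] at hent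
    exact hent
  have hq21 : ∑ y, q2 y = 1 := by
    rw [← hq1, hsum q (fun a h => h)]
  have hm0 : ∀ b, 0 ≤ m b := by
    intro b
    rw [hm b]
    apply Finset.sum_nonneg
    intro a _
    by_cases h : a.1 = b
    · rw [iv_pos h]; exact hq0 a
    · rw [iv_neg h]
  have hm1 : ∑ b, m b = 1 := by
    have : ∀ b, m b = ∑ a, iv (a.1 = b) (q a) := hm
    rw [Finset.sum_congr rfl (fun b _ => this b), Finset.sum_comm, ← hq1]
    apply Finset.sum_congr rfl
    intro a _
    simp only [iv_eq_ite]
    rw [Finset.sum_ite_eq univ a.1, if_pos (mem_univ _)]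
  set M : (Fin n → W) → ℝ := fun y => ∏ i, m (y i) with hM
  have hM0 : ∀ y, 0 ≤ M y := fun y => Finset.prod_nonneg (fun i _ => hm0 _)
  have hq2m : ∀ y i, q2 y ≤ m (y i) := by
    intro y i
    rw [hmi' i (y i)]
    have := Finset.single_le_sum (f := fun y' => iv (y' i = y i) (q2 y')) (s := univ)
      (fun y' _ => by
        by_cases h : y' i = y i
        · rw [iv_pos h]; exact hq20 _
        · rw [iv_neg h]) (mem_univ y)
    beta_reduce at this
    rwa [iv_pos rfl] at this
  have hMq : ∀ y, M y = 0 → q2 y = 0 := by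
    intro y h
    rw [hM] at h
    obtain ⟨i, _, hi⟩ := Finset.prod_eq_zero_iff.1 h
    have := hq2m y i
    rw [hi] at this
    exact le_antisymm this (hq20 y)
  have hM1 : ∑ y, M y = 1 := by
    have h5 := sum_pi_prod (n := n) m (fun _ => True)
    rw [Finset.sum_congr rfl (fun y _ => iv_pos (fun _ => trivial) _),
      Finset.sum_congr rfl (fun b _ => iv_pos trivial _), hm1, one_pow] at h5
    exact h5
  have hlogM : ∑ y, q2 y * Real.log (M y) = -(n * ∑ b, Real.negMulLog (m b)) := by
    have e1 : ∀ y, q2 y * Real.log (M y) = ∑ i, q2 y * Real.log (m (y i)) := by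
      intro y
      by_cases h : q2 y = 0
      · rw [h, zero_mul]; simp
      · rw [hM, Real.log_prod, Finset.mul_sum]
        intro i _ hi
        apply h
        have := hq2m y i
        rw [hi] at this
        exact le_antisymm this (hq20 y)
    rw [Finset.sum_congr rfl (fun y _ => e1 y), Finset.sum_comm]
    have e2 : ∀ i : Fin n, ∑ y, q2 y * Real.log (m (y i)) = -∑ b, Real.negMulLog (m b) := by
      intro i
      have e3 : ∀ y : Fin n → W, q2 y * Real.log (m (y i)) =
          ∑ b, iv (y i = b) (q2 y) * Real.log (m b) := by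
        intro y
        simp only [iv_eq_ite, ite_mul, zero_mul]
        rw [Finset.sum_ite_eq univ (y i), if_pos (mem_univ _)]
      rw [Finset.sum_congr rfl (fun y _ => e3 y), Finset.sum_comm, ← Finset.sum_neg_distrib]
      apply Finset.sum_congr rfl
      intro b _
      rw [← Finset.sum_mul, ← hmi' i b]
      unfold Real.negMulLog
      ring
    rw [Finset.sum_congr rfl (fun i _ => e2 i), Finset.sum_const, Finset.card_univ,
      Fintype.card_fin, nsmul_eq_mul]
    ring
  have hprod : ∀ y, q2 y = M y := by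
    have hle : ∀ y, Real.negMulLog (q2 y) + q2 y * Real.log (M y) ≤ M y - q2 y :=
      fun y => (gibbs_pt (hq20 y) (hM0 y) (hMq y)).1
    have hs : ∑ y, (M y - q2 y) ≤ ∑ y, (Real.negMulLog (q2 y) + q2 y * Real.log (M y)) := by
      rw [Finset.sum_sub_distrib, Finset.sum_add_distrib, hM1, hq21, hlogM]
      linarith
    have heq := (Finset.sum_eq_sum_iff_of_le (fun y (_ : y ∈ univ) => hle y)).1
      (le_antisymm (Finset.sum_le_sum (fun y _ => hle y)) hs)
    intro y
    exact (gibbs_pt (hq20 y) (hM0 y) (hMq y)).2 (heq y (mem_univ y))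
  -- consequences
  have hmW : m (true, true) + m (true, false) + m (false, true) + m (false, false) = 1 := by
    rw [← hm1, Fintype.sum_prod_type]
    simp
    ring
  have hnor : ∀ y : Fin n → Bool, nor y = true ↔ ∀ i, y i = false := by
    intro y; simp [nor]
  -- first coordinate
  have eqp : p = (1 - p) ^ n := by
    have e1 : p = ∑ y, iv (∀ i, (y i).1 = false) (M y) := by
      rw [← h1, hm' (true, true), hm' (true, false), ← Finset.sum_add_distrib]
      apply Finset.sum_congr rfl
      intro y _
      rw [hprod y]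
      by_cases ha : ∀ i, (y i).1 = false
      · have ha' : nor (fun i => (y i).1) = true := (hnor _).2 ha
        rw [iv_pos ha]
        rcases hb : nor (fun i => (y i).2) with _ | _
        · rw [iv_neg, iv_pos, zero_add]
          · simp [nor2, ha', hb]
          · simp [nor2, ha', hb]
        · rw [iv_pos, iv_neg, add_zero]
          · simp [nor2, ha', hb]
          · simp [nor2, ha', hb]
      · have ha' : nor (fun i => (y i).1) ≠ true := fun h => ha ((hnor _).1 h)
        rw [iv_neg ha, iv_neg, iv_neg, add_zero]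
        · intro h; exact ha' (congrArg Prod.fst h)
        · intro h; exact ha' (congrArg Prod.fst h)
    rw [sum_pi_prod m (fun b => b.1 = false)] at e1
    rw [Fintype.sum_prod_type] at e1
    simp only [Fintype.sum_bool, iv_eq_ite] at e1
    simp only [Bool.true_eq_false, if_false, if_true, add_zero, zero_add] at e1
    have : m (false, true) + m (false, false) = 1 - p := by linarith
    rw [this] at e1
    exact e1
  have eqr : (p + p ^ 2) / 2 = (1 - 2 * p + (p + p ^ 2) / 2) ^ n := by
    have e1 : m (true, true) = ∑ y, iv (∀ i, y i = (false, false)) (M y) := by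
      rw [hm' (true, true)]
      apply Finset.sum_congr rfl
      intro y _
      rw [hprod y]
      apply iv_congr
      constructor
      · intro h i
        have a1 := (hnor _).1 (congrArg Prod.fst h) i
        have a2 := (hnor _).1 (congrArg Prod.snd h) i
        exact Prod.ext a1 a2
      · intro h
        refine Prod.ext ?_ ?_
        · exact (hnor _).2 (fun i => by rw [h i])
        · exact (hnor _).2 (fun i => by rw [h i])
    rw [sum_pi_prod m (fun b => b = (false, false))] at e1
    simp only [iv_eq_ite] at e1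
    rw [Finset.sum_ite_eq' univ (false, false), if_pos (mem_univ _)] at e1
    have : m (false, false) = 1 - 2 * p + (p + p ^ 2) / 2 := by
      rw [← h3]; linarith
    rw [this] at e1
    exact h3.symm.trans e1
  -- strict convexity
  have hxy : (1 - p) ≠ (1 - p) ^ 2 := by
    intro h
    have : (1 - p) * p = 0 := by linear_combination h
    rcases mul_eq_zero.1 this with h | h <;> linarith
  have hmem1 : (1 - p) ∈ Set.Ici (0 : ℝ) := Set.mem_Ici.2 (by linarith)
  have hmem2 : (1 - p) ^ 2 ∈ Set.Ici (0 : ℝ) := Set.mem_Ici.2 (sq_nonneg _)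
  have hs := (strictConvexOn_pow (n := n) hn).2 hmem1 hmem2 hxy
    (show (0 : ℝ) < 1 / 2 by norm_num) (show (0 : ℝ) < 1 / 2 by norm_num) (by norm_num)
  simp only [smul_eq_mul] at hs
  rw [← pow_mul, mul_comm 2 n, pow_mul, ← eqp] at hs
  have : (1 / 2 * (1 - p) + 1 / 2 * (1 - p) ^ 2) = 1 - 2 * p + (p + p ^ 2) / 2 := by ring
  rw [this, ← eqr] at hs
  linarith

end Pool.Agent.H.MP_2e25e6_lc
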