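import Mathlib
import Pool.Agent.H.MP_2e25e6_lc.EI

set_option autoImplicit false

/-!
Correlated pairs of seeds, approximation by cylinder functions.
-/

namespace Pool.Agent.H.MP_2e25e6_lc

open Finset MeasureTheory
open FreeGroup (of)
open scoped unitInterval ENNReal

/-- weights of a correlated pair of fair bits -/
noncomputable def wt (ρ : ℝ) (e : Bool × Bool) : ℝ :=
  (1 - ρ) / 4 + if e.1 = e.2 then ρ / 2 else 0

theorem wt_nonneg {ρ : ℝ} (h : ρ ∈ Set.Icc (0 : ℝ) 1) (e : Bool × Bool) : 0 ≤ wt ρ e := by
  unfold wt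
  obtain ⟨h0, h1⟩ := h
  split_ifs <;> linarith

theorem wt_sum (ρ : ℝ) : ∑ e, wt ρ e = 1 := by
  rw [Fintype.sum_prod_type]
  simp [wt]
  ring

/-- fair bit -/
noncomputable def unif : Measure Bool := (PMF.uniformOfFintype Bool).toMeasure

instance : IsProbabilityMeasure unif := by unfold unif; infer_instance

theorem unif_real (b : Bool) : unif.real {b} = 1 / 2 := by
  unfold unif
  rw [Measure.real, PMF.toMeasure_apply_singleton _ _ (measurableSet_singleton b),
    PMF.uniformOfFintype_apply]
  simp

/-- correlated pair of fair bits -/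
noncomputable def nuP (ρ : I) : PMF (Bool × Bool) :=
  PMF.ofFintype (fun e => ENNReal.ofReal (wt ρ e)) (by
    rw [← ENNReal.ofReal_sum_of_nonneg (fun e _ => wt_nonneg ρ.2 e), wt_sum]
    simp)

noncomputable def nu (ρ : I) : Measure (Bool × Bool) := (nuP ρ).toMeasure

instance (ρ : I) : IsProbabilityMeasure (nu ρ) := by unfold nu; infer_instance

theorem nu_real (ρ : I) (e : Bool × Bool) : (nu ρ).real {e} = wt ρ e := by
  unfold nu nuP
  rw [Measure.real, PMF.toMeasure_apply_singleton _ _ (measurableSet_singleton e),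
    PMF.ofFintype_apply, ENNReal.toReal_ofReal (wt_nonneg ρ.2 e)]

theorem nu_fst (ρ : I) : (nu ρ).map Prod.fst = unif := by
  have : IsProbabilityMeasure ((nu ρ).map Prod.fst) :=
    Measure.isProbabilityMeasure_map measurable_fst.aemeasurable
  apply Measure.ext_of_singleton
  intro b
  rw [← ENNReal.toReal_eq_toReal_iff' (measure_ne_top _ _) (measure_ne_top _ _)]
  change ((nu ρ).map Prod.fst).real {b} = unif.real {b}
  rw [unif_real, Measure.real, Measure.map_apply measurable_fst (measurableSet_singleton b)]
  have h1 : (Prod.fst ⁻¹' {b} : Set (Bool × Bool)) =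
      (({(b, true), (b, false)} : Finset (Bool × Bool)) : Set (Bool × Bool)) := by
    ext ⟨x, y⟩
    simp
    cases y <;> simp
  rw [h1]
  change (nu ρ).real _ = _
  rw [← sum_measureReal_singleton, Finset.sum_pair (by simp), nu_real, nu_real]
  unfold wt
  cases b <;> simp <;> ring

theorem nu_snd (ρ : I) : (nu ρ).map Prod.snd = unif := by
  have : IsProbabilityMeasure ((nu ρ).map Prod.snd) :=
    Measure.isProbabilityMeasure_map measurable_snd.aemeasurable
  apply Measure.ext_of_singleton
  intro b
  rw [← ENNReal.toReal_eq_toReal_iff' (measure_ne_top _ _) (measure_ne_top _ _)]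
  change ((nu ρ).map Prod.snd).real {b} = unif.real {b}
  rw [unif_real, Measure.real, Measure.map_apply measurable_snd (measurableSet_singleton b)]
  have h1 : (Prod.snd ⁻¹' {b} : Set (Bool × Bool)) =
      (({(true, b), (false, b)} : Finset (Bool × Bool)) : Set (Bool × Bool)) := by
    ext ⟨x, y⟩
    simp
    cases x <;> simp
  rw [h1]
  change (nu ρ).real _ = _
  rw [← sum_measureReal_singleton, Finset.sum_pair (by simp), nu_real, nu_real]
  unfold wt
  cases b <;> simp <;> ring

variable {n : ℕ}

/-- Bernoulli measure on single configurations -/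
noncomputable def mu0 (n : ℕ) : Measure (FG n → Bool) := Measure.infinitePi (fun _ : FG n => unif)

/-- Bernoulli measure on pairs of configurations -/
noncomputable def muP (n : ℕ) (ρ : I) : Measure (FG n → Bool × Bool) :=
  Measure.infinitePi (fun _ : FG n => nu ρ)

instance : IsProbabilityMeasure (mu0 n) := by unfold mu0; infer_instance
instance (ρ : I) : IsProbabilityMeasure (muP n ρ) := by unfold muP; infer_instance

/-- first and second configuration -/
def c1 (x : FG n → Bool × Bool) : FG n → Bool := fun g => (x g).1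
def c2 (x : FG n → Bool × Bool) : FG n → Bool := fun g => (x g).2

theorem measurable_c1 : Measurable (c1 (n := n)) :=
  measurable_pi_lambda _ (fun g => measurable_fst.comp (measurable_pi_apply g))
theorem measurable_c2 : Measurable (c2 (n := n)) :=
  measurable_pi_lambda _ (fun g => measurable_snd.comp (measurable_pi_apply g))

theorem map_c1 (ρ : I) : (muP n ρ).map c1 = mu0 n := by
  have h := Measure.infinitePi_map_pi (fun _ : FG n => nu ρ) (f := fun _ => Prod.fst)
    (fun _ => measurable_fst)
  unfold muP mu0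
  simp only [nu_fst] at h
  exact h

theorem map_c2 (ρ : I) : (muP n ρ).map c2 = mu0 n := by
  have h := Measure.infinitePi_map_pi (fun _ : FG n => nu ρ) (f := fun _ => Prod.snd)
    (fun _ => measurable_snd)
  unfold muP mu0
  simp only [nu_snd] at h
  exact h

theorem measurable_shift {E : Type} [MeasurableSpace E] (g : FG n) :
    Measurable (shift g : (FG n → E) → (FG n → E)) :=
  measurable_pi_lambda _ (fun _ => measurable_pi_apply _)

theorem map_shift {E : Type} [Fintype E] [MeasurableSpace E] [MeasurableSingletonClass E]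
    (ν : Measure E) [IsProbabilityMeasure ν] (g : FG n) :
    (Measure.infinitePi (fun _ : FG n => ν)).map (shift g) =
      Measure.infinitePi (fun _ : FG n => ν) :=
  map_comp_injective ν (fun h : FG n => h * g) (mul_left_injective g)

/-- probability of a local event as a finite sum -/
theorem local_sum {E : Type} [Fintype E] [MeasurableSpace E] [MeasurableSingletonClass E]
    (ν : Measure E) [IsProbabilityMeasure ν] (B : Finset (FG n)) (S : Set (B → E)) :
    (Measure.infinitePi (fun _ : FG n => ν)).real {x | (fun b : B => x b) ∈ S} =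
      ∑ ω : B → E, iv (ω ∈ S) (∏ v, ν.real {ω v}) := by
  have h1 := map_comp_injective ν (fun b : B => (b : FG n)) Subtype.val_injective
  have m1 : Measurable (fun (U : FG n → E) (b : B) => U (b : FG n)) :=
    measurable_pi_lambda _ (fun b => measurable_pi_apply _)
  have hS : MeasurableSet S := S.toFinite.measurableSet
  have e1 : (Measure.infinitePi (fun _ : FG n => ν)).real {x | (fun b : B => x b) ∈ S} =
      (Measure.infinitePi (fun _ : B => ν)).real S := by
    rw [← h1, Measure.real, Measure.real, Measure.map_apply m1 hS]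
    rfl
  rw [e1, real_eq_sum]
  rfl

/-- local functions factor through a finite restriction -/
theorem local_factor {E : Type} [Nonempty E] {K : Type} (B : Finset (FG n)) (φ : (FG n → E) → K)
    (hφ : ∀ x y : FG n → E, (∀ b ∈ B, x b = y b) → φ x = φ y) :
    ∃ ψ : (B → E) → K, ∀ x, φ x = ψ (fun b => x b) := by
  classical
  obtain ⟨e0⟩ := (inferInstance : Nonempty E)
  refine ⟨fun y => φ (fun g => if h : g ∈ B then y ⟨g, h⟩ else e0), fun x => ?_⟩
  apply hφ
  intro b hb
  simp only [hb, dif_pos]

/-- overlap -/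
noncomputable def rr (φ : (FG n → Bool) → Bool) (ρ : I) : ℝ :=
  (muP n ρ).real {x | φ (c1 x) = true ∧ φ (c2 x) = true}

theorem rr_eq (B : Finset (FG n)) (ψ : (B → Bool) → Bool) (φ : (FG n → Bool) → Bool)
    (hφ : ∀ x, φ x = ψ (fun b => x b)) (ρ : I) :
    rr φ ρ = ∑ ω : B → Bool × Bool,
      iv (ψ (fun v => (ω v).1) = true ∧ ψ (fun v => (ω v).2) = true) (∏ v, wt ρ (ω v)) := by
  have h := local_sum (nu ρ) B {ω | ψ (fun v => (ω v).1) = true ∧ ψ (fun v => (ω v).2) = true}
  simp only [nu_real] at h
  rw [rr, muP]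
  simp only [hφ]
  exact h

theorem rr_continuous (B : Finset (FG n)) (φ : (FG n → Bool) → Bool)
    (hφ : ∀ x y : FG n → Bool, (∀ b ∈ B, x b = y b) → φ x = φ y) : Continuous (rr φ) := by
  obtain ⟨ψ, hψ⟩ := local_factor B φ hφ
  have : rr φ = fun ρ : I => ∑ ω : B → Bool × Bool,
      iv (ψ (fun v => (ω v).1) = true ∧ ψ (fun v => (ω v).2) = true) (∏ v, wt ρ (ω v)) := by
    funext ρ
    exact rr_eq B ψ φ hψ ρ
  rw [this]
  apply continuous_finsetSum
  intro ω _
  by_cases h : ψ (fun v => (ω v).1) = true ∧ ψ (fun v => (ω v).2) = true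
  · simp only [iv_pos h]
    apply continuous_finsetProd
    intro v _
    unfold wt
    by_cases h2 : (ω v).1 = (ω v).2
    · simp only [h2, if_true]
      fun_prop
    · simp only [h2, if_false]
      fun_prop
  · simp only [iv_neg h]
    exact continuous_const

theorem p_eq (B : Finset (FG n)) (ψ : (B → Bool) → Bool) (φ : (FG n → Bool) → Bool)
    (hφ : ∀ x, φ x = ψ (fun b => x b)) :
    (mu0 n).real {x | φ x = true} = ∑ ω : B → Bool, iv (ψ ω = true) ((1 / 2) ^ B.card) := by
  have h := local_sum unif B {ω | ψ ω = true}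
  simp only [unif_real, Finset.prod_const, Finset.card_univ, Fintype.card_coe] at h
  rw [mu0]
  simp only [hφ]
  exact h

theorem rr_zero (B : Finset (FG n)) (φ : (FG n → Bool) → Bool)
    (hφ : ∀ x y : FG n → Bool, (∀ b ∈ B, x b = y b) → φ x = φ y) :
    rr φ 0 = ((mu0 n).real {x | φ x = true}) ^ 2 := by
  obtain ⟨ψ, hψ⟩ := local_factor B φ hφ
  rw [rr_eq B ψ φ hψ, p_eq B ψ φ hψ, sq, Finset.sum_mul_sum]
  let e : (B → Bool × Bool) ≃ (B → Bool) × (B → Bool) :=
    Equiv.arrowProdEquivProdArrow B (fun _ => Bool) (fun _ => Bool)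
  rw [← e.symm.sum_comp, Fintype.sum_prod_type]
  apply Finset.sum_congr rfl
  intro a _
  apply Finset.sum_congr rfl
  intro b _
  have h1 : ∏ v, wt ((0 : I) : ℝ) (e.symm (a, b) v) = (1 / 2) ^ B.card * (1 / 2) ^ B.card := by
    have : ∀ v, wt ((0 : I) : ℝ) (e.symm (a, b) v) = (1 / 2) * (1 / 2) := by
      intro v
      unfold wt
      simp
      norm_num
    rw [Finset.prod_congr rfl (fun v _ => this v), Finset.prod_const, Finset.card_univ,
      Fintype.card_coe, mul_pow]
  rw [h1]
  have h2 : (fun v => (e.symm (a, b) v).1) = a := rfl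
  have h3 : (fun v => (e.symm (a, b) v).2) = b := rfl
  rw [h2, h3]
  by_cases ha : ψ a = true
  · by_cases hb : ψ b = true
    · rw [iv_pos ⟨ha, hb⟩, iv_pos ha, iv_pos hb]
    · rw [iv_neg (fun h => hb h.2), iv_neg hb, mul_zero]
  · rw [iv_neg (fun h => ha h.1), iv_neg ha, zero_mul]

theorem rr_one (B : Finset (FG n)) (φ : (FG n → Bool) → Bool)
    (hφ : ∀ x y : FG n → Bool, (∀ b ∈ B, x b = y b) → φ x = φ y) :
    rr φ 1 = (mu0 n).real {x | φ x = true} := by
  obtain ⟨ψ, hψ⟩ := local_factor B φ hφ
  rw [rr_eq B ψ φ hψ, p_eq B ψ φ hψ]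
  let e : (B → Bool × Bool) ≃ (B → Bool) × (B → Bool) :=
    Equiv.arrowProdEquivProdArrow B (fun _ => Bool) (fun _ => Bool)
  rw [← e.symm.sum_comp, Fintype.sum_prod_type]
  apply Finset.sum_congr rfl
  intro a _
  have h2 : ∀ a b, (fun v => (e.symm (a, b) v).1) = a := fun a b => rfl
  have h3 : ∀ a b, (fun v => (e.symm (a, b) v).2) = b := fun a b => rfl
  rw [Finset.sum_eq_single a]
  · rw [h2, h3]
    have h1 : ∏ v, wt ((1 : I) : ℝ) (e.symm (a, a) v) = (1 / 2) ^ B.card := by
      have : ∀ v, wt ((1 : I) : ℝ) (e.symm (a, a) v) = 1 / 2 := by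
        intro v
        have : (e.symm (a, a) v).1 = (e.symm (a, a) v).2 := rfl
        unfold wt
        rw [if_pos this]
        simp
      rw [Finset.prod_congr rfl (fun v _ => this v), Finset.prod_const, Finset.card_univ,
        Fintype.card_coe]
    rw [h1]
    apply iv_congr
    simp
  · intro b _ hb
    have : ∃ v, a v ≠ b v := by
      by_contra hcon
      push Not at hcon
      exact hb (funext hcon).symm
    obtain ⟨v, hv⟩ := this
    have h1 : ∏ v, wt ((1 : I) : ℝ) (e.symm (a, b) v) = 0 := by
      apply Finset.prod_eq_zero (mem_univ v)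
      have : (e.symm (a, b) v).1 ≠ (e.symm (a, b) v).2 := hv
      unfold wt
      rw [if_neg this]
      simp
    rw [h1]
    by_cases h : ψ (fun v => (e.symm (a, b) v).1) = true ∧ ψ (fun v => (e.symm (a, b) v).2) = true
    · rw [iv_pos h]
    · rw [iv_neg h]
  · intro h; exact absurd (mem_univ _) h

/-- approximation of measurable sets by local functions -/
theorem exists_local (A : Set (FG n → Bool)) (hA : MeasurableSet A) (ε : ℝ) (hε : 0 < ε) :
    ∃ (B : Finset (FG n)) (φ : (FG n → Bool) → Bool),
      (∀ x y : FG n → Bool, (∀ b ∈ B, x b = y b) → φ x = φ y) ∧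
      Measurable φ ∧ (mu0 n).real (symmDiff A {x | φ x = true}) < ε := by
  classical
  have halg : IsSetAlgebra (measurableCylinders (fun _ : FG n => Bool)) :=
    { empty_mem := empty_mem_measurableCylinders _
      compl_mem := fun s hs => compl_mem_measurableCylinders hs
      union_mem := fun s t hs ht => union_mem_measurableCylinders hs ht }
  have hd := Measure.MeasureDense.of_generateFrom_isSetAlgebra_finite (mu0 n) halg
    generateFrom_measurableCylinders.symm
  obtain ⟨t, ht, hlt⟩ := hd.approx A hA (measure_ne_top _ _) ε hε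
  rw [mem_measurableCylinders] at ht
  obtain ⟨B, S, hS, rfl⟩ := ht
  set C : Set (FG n → Bool) := cylinder (α := fun _ : FG n => Bool) B S with hC
  have hCm : MeasurableSet C := MeasurableSet.cylinder (α := fun _ : FG n => Bool) B hS
  refine ⟨B, fun x => decide (x ∈ C), ?_, ?_, ?_⟩
  · intro x y h
    have : (x ∈ C) ↔ (y ∈ C) := by
      rw [hC, mem_cylinder, mem_cylinder]
      have : B.restrict x = B.restrict y := by
        funext b
        exact h b b.2
      rw [this]
    simp only [this]
  · apply measurable_to_bool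
    have : (fun x => decide (x ∈ C)) ⁻¹' {true} = C := by
      ext x; simp
    rw [this]
    exact hCm
  · have : {x | decide (x ∈ C) = true} = C := by
      ext x; simp
    rw [this, Measure.real]
    exact (ENNReal.toReal_lt_of_lt_ofReal hlt)

end Pool.Agent.H.MP_2e25e6_lc
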