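import Mathlib
import Pool.Agent.H.MP_2e25e6_lc.Seeds
import Pool.Agent.H.MP_2e25e6_lc.Fin

set_option autoImplicit false

/-!
No measurable solution of the NOR equation on the Bernoulli shift of the free group.
-/

namespace Pool.Agent.H.MP_2e25e6_lc

open Finset MeasureTheory Filter Topology
open FreeGroup (of)
open scoped unitInterval ENNReal

variable {n : ℕ}

theorem law_sum {Ω α : Type} [MeasurableSpace Ω] (P : Measure Ω) [IsProbabilityMeasure P]
    [Fintype α] [MeasurableSpace α] [MeasurableSingletonClass α] (Ψ : Ω → α)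
    (hΨ : Measurable Ψ) (S : α → Prop) :
    P.real {x | S (Ψ x)} = ∑ a, iv (S a) (P.real {x | Ψ x = a}) := by
  classical
  have h1 : ∀ U : Set α, P.real (Ψ ⁻¹' U) = (P.map Ψ).real U := by
    intro U
    rw [Measure.real, Measure.real, Measure.map_apply hΨ U.toFinite.measurableSet]
  have : IsProbabilityMeasure (P.map Ψ) := Measure.isProbabilityMeasure_map hΨ.aemeasurable
  have h2 : {x | S (Ψ x)} = Ψ ⁻¹' ((univ.filter S : Finset α) : Set α) := by
    ext x; simp
  rw [h2, h1, ← sum_measureReal_singleton, Finset.sum_filter]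
  apply Finset.sum_congr rfl
  intro a _
  rw [iv_eq_ite, ← h1]
  rfl

/-- pair factor -/
def PF (φ : (FG n → Bool) → Bool) (x : FG n → Bool × Bool) : Bool × Bool := (φ (c1 x), φ (c2 x))

theorem measurable_PF {φ : (FG n → Bool) → Bool} (hφ : Measurable φ) : Measurable (PF φ) :=
  (hφ.comp measurable_c1).prodMk (hφ.comp measurable_c2)

theorem measurable_XX {φ : (FG n → Bool) → Bool} (hφ : Measurable φ) : Measurable (XX (PF φ)) := by
  refine (measurable_PF hφ).prodMk (measurable_pi_lambda _ (fun i => ?_))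
  exact (measurable_PF hφ).comp (measurable_shift _)

/-- law of the star -/
noncomputable def qq (φ : (FG n → Bool) → Bool) (ρ : I) : T n → ℝ :=
  fun a => (muP n ρ).real {x | XX (PF φ) x = a}

/-- law of the centre -/
noncomputable def mm (φ : (FG n → Bool) → Bool) (ρ : I) : W → ℝ :=
  fun b => (muP n ρ).real {x | PF φ x = b}

theorem mm_eq_centre {φ : (FG n → Bool) → Bool} (hφ : Measurable φ) (ρ : I) (b : W) :
    mm φ ρ b = ∑ a, iv (a.1 = b) (qq φ ρ a) :=
  law_sum (muP n ρ) (XX (PF φ)) (measurable_XX hφ) (fun a => a.1 = b)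

theorem mm_eq_leaf {φ : (FG n → Bool) → Bool} (hφ : Measurable φ) (ρ : I) (i : Fin n) (b : W) :
    mm φ ρ b = ∑ a, iv (a.2 i = b) (qq φ ρ a) := by
  have h := law_sum (muP n ρ) (XX (PF φ)) (measurable_XX hφ) (fun a => a.2 i = b)
  unfold qq
  rw [← h]
  unfold mm
  have h2 : {x : FG n → Bool × Bool | (XX (PF φ) x).2 i = b} =
      (shift (of i)) ⁻¹' {x | PF φ x = b} := rfl
  have hm : MeasurableSet {x : FG n → Bool × Bool | PF φ x = b} :=
    measurable_PF hφ (measurableSet_singleton b)
  rw [h2, Measure.real, Measure.real, ← Measure.map_apply (measurable_shift _) hm, muP, map_shift]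

theorem qq_mem (φ : (FG n → Bool) → Bool) (hφ : Measurable φ) (ρ : I) :
    qq φ ρ ∈ stdSimplex ℝ (T n) := by
  constructor
  · intro a; exact measureReal_nonneg
  · have h := law_sum (muP n ρ) (XX (PF φ)) (measurable_XX hφ) (fun _ => True)
    rw [Finset.sum_congr rfl (fun a _ => iv_pos trivial _)] at h
    unfold qq
    rw [← h]
    simp

theorem fst_prob {φ : (FG n → Bool) → Bool} (hφ : Measurable φ) (ρ : I) :
    mm φ ρ (true, true) + mm φ ρ (true, false) = (mu0 n).real {x | φ x = true} := by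
  have h := law_sum (muP n ρ) (PF φ) (measurable_PF hφ) (fun b => b.1 = true)
  have hm : MeasurableSet {x : FG n → Bool | φ x = true} := hφ (measurableSet_singleton true)
  have h2 : {x : FG n → Bool × Bool | (PF φ x).1 = true} = c1 ⁻¹' {x | φ x = true} := rfl
  rw [h2] at h
  have h3 : (muP n ρ).real (c1 ⁻¹' {x | φ x = true}) = (mu0 n).real {x | φ x = true} := by
    rw [Measure.real, Measure.real, ← map_c1 ρ, Measure.map_apply measurable_c1 hm]
  rw [h3] at h
  rw [h, Fintype.sum_prod_type]
  simp only [Fintype.sum_bool, iv_eq_ite]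
  simp [mm]

theorem snd_prob {φ : (FG n → Bool) → Bool} (hφ : Measurable φ) (ρ : I) :
    mm φ ρ (true, true) + mm φ ρ (false, true) = (mu0 n).real {x | φ x = true} := by
  have h := law_sum (muP n ρ) (PF φ) (measurable_PF hφ) (fun b => b.2 = true)
  have hm : MeasurableSet {x : FG n → Bool | φ x = true} := hφ (measurableSet_singleton true)
  have h2 : {x : FG n → Bool × Bool | (PF φ x).2 = true} = c2 ⁻¹' {x | φ x = true} := rfl
  rw [h2] at h
  have h3 : (muP n ρ).real (c2 ⁻¹' {x | φ x = true}) = (mu0 n).real {x | φ x = true} := by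
    rw [Measure.real, Measure.real, ← map_c2 ρ, Measure.map_apply measurable_c2 hm]
  rw [h3] at h
  rw [h, Fintype.sum_prod_type]
  simp only [Fintype.sum_bool, iv_eq_ite]
  simp [mm]

theorem mm_tt (φ : (FG n → Bool) → Bool) (ρ : I) : mm φ ρ (true, true) = rr φ ρ := by
  unfold mm rr PF
  simp only [Prod.mk.injEq]

/-- failure probability of the rule for a local approximation -/
theorem bad_bound (A : Set (FG n → Bool)) (hA : MeasurableSet A)
    (hae : ∀ᵐ x ∂(mu0 n), x ∈ A ↔ ∀ i : Fin n, shift (of i) x ∉ A)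
    (φ : (FG n → Bool) → Bool) (hφ : Measurable φ) (ε : ℝ)
    (hε : (mu0 n).real (symmDiff A {x | φ x = true}) ≤ ε) :
    (mu0 n).real {y | φ y ≠ nor (fun i => φ (shift (of i) y))} ≤ (n + 1) * ε := by
  set D := symmDiff A {x | φ x = true} with hD
  have hDm : MeasurableSet D := hA.symmDiff (hφ (measurableSet_singleton true))
  have hae2 : ∀ᵐ y ∂(mu0 n), y ∈ {y | φ y ≠ nor (fun i => φ (shift (of i) y))} →
      y ∈ D ∪ ⋃ i : Fin n, (shift (of i)) ⁻¹' D := by
    filter_upwards [hae] with y hy hbad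
    by_contra hcon
    rw [Set.mem_union, not_or, Set.mem_iUnion, not_exists] at hcon
    have hiff : ∀ z : FG n → Bool, z ∉ D → (z ∈ A ↔ φ z = true) := by
      intro z hz
      rw [hD, Set.mem_symmDiff, not_or] at hz
      constructor
      · intro h1
        by_contra h2
        exact hz.1 ⟨h1, h2⟩
      · intro h1
        by_contra h2
        exact hz.2 ⟨h1, h2⟩
    apply hbad
    have h0 := hiff y hcon.1
    have h1 : ∀ i, (shift (of i) y ∈ A ↔ φ (shift (of i) y) = true) := fun i => hiff _ (hcon.2 i)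
    have h2 : (φ y = true) ↔ (nor (fun i => φ (shift (of i) y)) = true) := by
      rw [← h0, hy]
      simp only [h1, nor, decide_eq_true_eq, Bool.not_eq_true]
    cases h3 : φ y <;> cases h4 : nor (fun i => φ (shift (of i) y)) <;> simp_all
  have h1 : (mu0 n).real {y | φ y ≠ nor (fun i => φ (shift (of i) y))} ≤
      (mu0 n).real (D ∪ ⋃ i : Fin n, (shift (of i)) ⁻¹' D) := by
    rw [Measure.real, Measure.real]
    exact ENNReal.toReal_mono (measure_ne_top _ _) (measure_mono_ae hae2)
  have h2 : (mu0 n).real (D ∪ ⋃ i : Fin n, (shift (of i)) ⁻¹' D) ≤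
      (mu0 n).real D + ∑ i : Fin n, (mu0 n).real ((shift (of i)) ⁻¹' D) :=
    (measureReal_union_le _ _).trans (add_le_add le_rfl (measureReal_iUnion_fintype_le _))
  have h3 : ∀ i : Fin n, (mu0 n).real ((shift (of i)) ⁻¹' D) = (mu0 n).real D := by
    intro i
    rw [Measure.real, Measure.real, ← Measure.map_apply (measurable_shift _) hDm]
    unfold mu0
    rw [map_shift]
  rw [Finset.sum_congr rfl (fun i _ => h3 i), Finset.sum_const, Finset.card_univ,
    Fintype.card_fin, nsmul_eq_mul] at h2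
  have h4 : (mu0 n).real D + n * (mu0 n).real D ≤ (n + 1) * ε := by
    have : (mu0 n).real D + n * (mu0 n).real D = (n + 1) * (mu0 n).real D := by ring
    rw [this]
    exact mul_le_mul_of_nonneg_left hε (by positivity)
  linarith

theorem qq_bad (A : Set (FG n → Bool)) (hA : MeasurableSet A)
    (hae : ∀ᵐ x ∂(mu0 n), x ∈ A ↔ ∀ i : Fin n, shift (of i) x ∉ A)
    (φ : (FG n → Bool) → Bool) (hφ : Measurable φ) (ε : ℝ)
    (hε : (mu0 n).real (symmDiff A {x | φ x = true}) ≤ ε) (ρ : I) (a : T n)
    (ha : a.1 ≠ nor2 a.2) : qq φ ρ a ≤ 2 * ((n + 1) * ε) := by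
  set Bad : Set (FG n → Bool) := {y | φ y ≠ nor (fun i => φ (shift (of i) y))} with hBad
  have hb := bad_bound A hA hae φ hφ ε hε
  have hBm : MeasurableSet Bad := by
    have h1 : Measurable (fun y : FG n → Bool => nor (fun i => φ (shift (of i) y))) := by
      have h2 : Measurable (fun y : FG n → Bool => fun i : Fin n => φ (shift (of i) y)) :=
        measurable_pi_lambda _ (fun i => hφ.comp (measurable_shift _))
      exact (measurable_of_finite (nor : (Fin n → Bool) → Bool)).comp h2
    exact (measurableSet_eq_fun hφ h1).compl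
  have hsub : {x | XX (PF φ) x = a} ⊆ c1 ⁻¹' Bad ∪ c2 ⁻¹' Bad := by
    intro x hx
    rw [Set.mem_ofPred_eq] at hx
    by_contra hcon
    rw [Set.mem_union, not_or] at hcon
    apply ha
    rw [← hx]
    have h1 : φ (c1 x) = nor (fun i => φ (shift (of i) (c1 x))) := by
      by_contra h; exact hcon.1 h
    have h2 : φ (c2 x) = nor (fun i => φ (shift (of i) (c2 x))) := by
      by_contra h; exact hcon.2 h
    exact Prod.ext h1 h2
  unfold qq
  calc (muP n ρ).real {x | XX (PF φ) x = a} ≤ (muP n ρ).real (c1 ⁻¹' Bad ∪ c2 ⁻¹' Bad) :=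
        measureReal_mono hsub
    _ ≤ (muP n ρ).real (c1 ⁻¹' Bad) + (muP n ρ).real (c2 ⁻¹' Bad) := measureReal_union_le _ _
    _ = (mu0 n).real Bad + (mu0 n).real Bad := by
        congr 1
        · rw [Measure.real, Measure.real, ← map_c1 ρ, Measure.map_apply measurable_c1 hBm]
        · rw [Measure.real, Measure.real, ← map_c2 ρ, Measure.map_apply measurable_c2 hBm]
    _ ≤ 2 * ((n + 1) * ε) := by linarith

theorem qq_ent (φ : (FG n → Bool) → Bool) (B : Finset (FG n))
    (hB : ∀ x y : FG n → Bool, (∀ b ∈ B, x b = y b) → φ x = φ y) (ρ : I) (hρ : (ρ : ℝ) < 1) :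
    n * ∑ b, Real.negMulLog (mm φ ρ b) ≤ ∑ a, Real.negMulLog (qq φ ρ a) := by
  apply EI n (nu ρ) _ (PF φ) B
  · intro x y h
    refine Prod.ext ?_ ?_
    · apply hB
      intro b hb
      simp only [c1, h b hb]
    · apply hB
      intro b hb
      simp only [c2, h b hb]
  · intro e
    rw [nu_real]
    unfold wt
    have := ρ.2.1
    split_ifs <;> linarith

theorem main (hn : 2 ≤ n) (A : Set (FG n → Bool)) (hA : MeasurableSet A)
    (hae : ∀ᵐ x ∂(mu0 n), x ∈ A ↔ ∀ i : Fin n, shift (of i) x ∉ A) : False := by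
  classical
  set p := (mu0 n).real A with hp
  have hshA : ∀ i : Fin n, (mu0 n).real ((shift (of i)) ⁻¹' A) = p := by
    intro i
    rw [hp, Measure.real, Measure.real, ← Measure.map_apply (measurable_shift _) hA]
    unfold mu0
    rw [map_shift]
  -- 0 < p < 1
  have hp0' : 0 ≤ p := measureReal_nonneg
  have hp1' : p ≤ 1 := measureReal_le_one
  have hi0 : Fin n := ⟨0, by omega⟩
  have hp1 : p < 1 := by
    rcases lt_or_eq_of_le hp1' with h | h
    · exact h
    exfalso
    have h1 : (mu0 n).real ((shift (of hi0)) ⁻¹' Aᶜ) = 0 := by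
      rw [Set.preimage_compl, measureReal_compl (measurable_shift _ hA), hshA, h]
      simp
    have h2 : (mu0 n).real A ≤ (mu0 n).real ((shift (of hi0)) ⁻¹' Aᶜ) := by
      rw [Measure.real, Measure.real]
      apply ENNReal.toReal_mono (measure_ne_top _ _)
      apply measure_mono_ae
      filter_upwards [hae] with x hx hxA
      exact (hx.1 hxA) hi0
    rw [h1, ← hp, h] at h2
    linarith
  have hp0 : 0 < p := by
    rcases lt_or_eq_of_le hp0' with h | h
    · exact h
    exfalso
    have h1 : (mu0 n).real (⋃ i : Fin n, (shift (of i)) ⁻¹' A) = 0 := by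
      apply le_antisymm _ measureReal_nonneg
      refine (measureReal_iUnion_fintype_le _).trans ?_
      rw [Finset.sum_congr rfl (fun i _ => hshA i), ← h]
      simp
    have h2 : (mu0 n).real Aᶜ ≤ (mu0 n).real (⋃ i : Fin n, (shift (of i)) ⁻¹' A) := by
      rw [Measure.real, Measure.real]
      apply ENNReal.toReal_mono (measure_ne_top _ _)
      apply measure_mono_ae
      filter_upwards [hae] with x hx hxA
      by_contra hcon
      apply hxA
      apply hx.2
      intro i hi
      exact hcon (Set.mem_iUnion.2 ⟨i, hi⟩)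
    rw [h1, measureReal_compl hA, ← hp, ← h] at h2
    simp at h2
    linarith
  -- approximations
  set δ := min p (1 - p) with hδ
  have hδ0 : 0 < δ := lt_min hp0 (by linarith)
  let ε : ℕ → ℝ := fun k => δ / (k + 1)
  have hε0 : ∀ k, 0 < ε k := fun k => by simp only [ε]; positivity
  have hεδ : ∀ k, ε k ≤ δ := fun k => by
    simp only [ε]
    apply div_le_self hδ0.le
    have : (0 : ℝ) ≤ k := Nat.cast_nonneg k
    linarith
  have hεlim : Tendsto ε atTop (𝓝 0) := by
    have h := (tendsto_one_div_add_atTop_nhds_zero_nat (𝕜 := ℝ)).const_mul δ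
    rw [mul_zero] at h
    refine h.congr (fun k => ?_)
    simp only [ε]
    ring
  choose B φ hB hφ hlt using fun k => exists_local A hA (ε k) (hε0 k)
  set pk : ℕ → ℝ := fun k => (mu0 n).real {x | φ k x = true} with hpk
  have hpk_near : ∀ k, |pk k - p| < ε k := by
    intro k
    have hm : MeasurableSet {x | φ k x = true} := hφ k (measurableSet_singleton true)
    have h1 := abs_measureReal_sub_le_measureReal_symmDiff (μ := mu0 n)
      hA.nullMeasurableSet hm.nullMeasurableSet
    rw [abs_sub_comm]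
    exact lt_of_le_of_lt h1 (hlt k)
  have hpk0 : ∀ k, 0 < pk k := by
    intro k
    have h1 := (abs_lt.1 (hpk_near k)).1
    have h2 := hεδ k
    have h3 : δ ≤ p := min_le_left _ _
    linarith
  have hpk1 : ∀ k, pk k < 1 := by
    intro k
    have h1 := (abs_lt.1 (hpk_near k)).2
    have h2 := hεδ k
    have h3 : δ ≤ 1 - p := min_le_right _ _
    linarith
  have hpklim : Tendsto pk atTop (𝓝 p) := by
    rw [tendsto_iff_dist_tendsto_zero]
    refine squeeze_zero (fun _ => dist_nonneg) (fun k => ?_) hεlim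
    rw [Real.dist_eq]
    exact (hpk_near k).le
  -- choice of ρ
  have hρ : ∀ k, ∃ ρ : I, rr (φ k) ρ = (pk k + pk k ^ 2) / 2 ∧ (ρ : ℝ) < 1 := by
    intro k
    have hc := rr_continuous (B k) (φ k) (hB k)
    have h0 : rr (φ k) 0 = pk k ^ 2 := rr_zero (B k) (φ k) (hB k)
    have h1 : rr (φ k) 1 = pk k := rr_one (B k) (φ k) (hB k)
    have hlt : pk k ^ 2 < pk k := by nlinarith [hpk0 k, hpk1 k]
    obtain ⟨ρ, hρ⟩ := mem_range_of_exists_le_of_exists_ge hc
      (c := (pk k + pk k ^ 2) / 2) ⟨0, by rw [h0]; linarith⟩ ⟨1, by rw [h1]; linarith⟩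
    refine ⟨ρ, hρ, ?_⟩
    rcases lt_or_eq_of_le ρ.2.2 with h | h
    · exact h
    · exfalso
      have : ρ = 1 := Subtype.ext h
      rw [this, h1] at hρ
      linarith
  choose ρ hρr hρ1 using hρ
  -- compactness
  obtain ⟨q, hq, s, hs, hlim⟩ := (isCompact_stdSimplex ℝ (T n)).tendsto_subseq
    (fun k => qq_mem (φ k) (hφ k) (ρ k))
  rw [tendsto_pi_nhds] at hlim
  have hlim' : ∀ a, Tendsto (fun k => qq (φ (s k)) (ρ (s k)) a) atTop (𝓝 (q a)) := hlim
  have hiv : ∀ (P : Prop) (a : T n),
      Tendsto (fun k => iv P (qq (φ (s k)) (ρ (s k)) a)) atTop (𝓝 (iv P (q a))) := by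
    intro P a
    by_cases h : P
    · simp only [iv_pos h]; exact hlim' a
    · simp only [iv_neg h]; exact tendsto_const_nhds
  set m : W → ℝ := fun b => ∑ a, iv (a.1 = b) (q a) with hm
  have hmlim : ∀ b, Tendsto (fun k => mm (φ (s k)) (ρ (s k)) b) atTop (𝓝 (m b)) := by
    intro b
    have : (fun k => mm (φ (s k)) (ρ (s k)) b) =
        fun k => ∑ a : T n, iv (a.1 = b) (qq (φ (s k)) (ρ (s k)) a) := by
      funext k
      exact mm_eq_centre (hφ _) _ b
    rw [this]
    exact tendsto_finsetSum _ (fun a _ => hiv _ a)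
  have hslim : Tendsto s atTop atTop := hs.tendsto_atTop
  refine finite_contradiction n hn q hq.1 hq.2 m (fun b => rfl) ?_ ?_ ?_ p hp0 hp1 ?_ ?_ ?_
  · intro i b
    have h1 : Tendsto (fun k => mm (φ (s k)) (ρ (s k)) b) atTop
        (𝓝 (∑ a : T n, iv (a.2 i = b) (q a))) := by
      have : (fun k => mm (φ (s k)) (ρ (s k)) b) =
          fun k => ∑ a : T n, iv (a.2 i = b) (qq (φ (s k)) (ρ (s k)) a) := by
        funext k
        exact mm_eq_leaf (hφ _) _ i b
      rw [this]
      exact tendsto_finsetSum _ (fun a _ => hiv _ a)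
    exact tendsto_nhds_unique (hmlim b) h1
  · have h1 : Tendsto (fun k => (n : ℝ) * ∑ b, Real.negMulLog (mm (φ (s k)) (ρ (s k)) b)) atTop
        (𝓝 (n * ∑ b, Real.negMulLog (m b))) :=
      (tendsto_finsetSum _ (fun b _ =>
        (Real.continuous_negMulLog.tendsto _).comp (hmlim b))).const_mul _
    have h2 : Tendsto (fun k => ∑ a, Real.negMulLog (qq (φ (s k)) (ρ (s k)) a)) atTop
        (𝓝 (∑ a, Real.negMulLog (q a))) :=
      tendsto_finsetSum _ (fun a _ => (Real.continuous_negMulLog.tendsto _).comp (hlim' a))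
    exact le_of_tendsto_of_tendsto' h1 h2
      (fun k => qq_ent (φ (s k)) (B (s k)) (hB _) (ρ (s k)) (hρ1 _))
  · intro a ha
    have h1 : Tendsto (fun k => 2 * (((n : ℝ) + 1) * ε (s k))) atTop (𝓝 0) := by
      have := ((hεlim.comp hslim).const_mul ((n : ℝ) + 1)).const_mul 2
      simpa using this
    have h2 : ∀ k, qq (φ (s k)) (ρ (s k)) a ≤ 2 * (((n : ℝ) + 1) * ε (s k)) :=
      fun k => qq_bad A hA hae (φ (s k)) (hφ _) (ε (s k)) (hlt _).le (ρ (s k)) a ha
    exact le_antisymm (le_of_tendsto_of_tendsto' (hlim' a) h1 h2) (hq.1 a)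
  · have h1 := (hmlim (true, true)).add (hmlim (true, false))
    have h2 : (fun k => mm (φ (s k)) (ρ (s k)) (true, true) + mm (φ (s k)) (ρ (s k)) (true, false))
        = pk ∘ s := by
      funext k; exact fst_prob (hφ _) _
    rw [h2] at h1
    exact tendsto_nhds_unique h1 (hpklim.comp hslim)
  · have h1 := (hmlim (true, true)).add (hmlim (false, true))
    have h2 : (fun k => mm (φ (s k)) (ρ (s k)) (true, true) + mm (φ (s k)) (ρ (s k)) (false, true))
        = pk ∘ s := by
      funext k; exact snd_prob (hφ _) _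
    rw [h2] at h1
    exact tendsto_nhds_unique h1 (hpklim.comp hslim)
  · have h1 := hmlim (true, true)
    have h2 : (fun k => mm (φ (s k)) (ρ (s k)) (true, true)) =
        fun k => ((pk ∘ s) k + (pk ∘ s) k ^ 2) / 2 := by
      funext k
      rw [mm_tt, hρr]
      rfl
    rw [h2] at h1
    have h3 := hpklim.comp hslim
    exact tendsto_nhds_unique h1 ((h3.add (h3.pow 2)).div_const 2)

end Pool.Agent.H.MP_2e25e6_lc
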